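import Mathlib

set_option autoImplicit false

/-!
Basic notions for subspaces of products which fill subproducts.
-/

namespace Pool.Agent.Helper23.Fill

universe u v

/-- The projection `π_J` of the product `∏ i, X i` onto the subproduct `∏ j ∈ J, X j`. -/
def proj {I : Type u} {X : I → Type v} (J : Set I) (x : ∀ i, X i) : ∀ j : J, X j :=
  fun j => x j

/-- `D` fills all countable subproducts: `π_J(D) = X_J` for every nonempty countable `J ⊆ I`. -/
def FillsCountable {I : Type u} {X : I → Type v} (D : Set (∀ i, X i)) : Prop :=
  ∀ J : Set I, J.Nonempty → J.Countable → proj J '' D = Set.univ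

/-- `D` fills all finite subproducts: `π_J(D) = X_J` for every nonempty finite `J ⊆ I`. -/
def FillsFinite {I : Type u} {X : I → Type v} (D : Set (∀ i, X i)) : Prop :=
  ∀ J : Set I, J.Nonempty → J.Finite → proj J '' D = Set.univ

end Pool.Agent.Helper23.Fill
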