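import Mathlib
import Pool.Agent.Helper23.Fill.Defs

set_option autoImplicit false

/-!
Passing from subsets of `Y × (I₀ → Z)` to subsets of a product indexed by `Option I₀`.
-/

open Topology Set

namespace Pool.Agent.Helper23.Fill

/-- a discrete copy of a type -/
structure Dsc (Z : Type) : Type where
  /-- the underlying element -/
  val : Z

instance (Z : Type) : TopologicalSpace (Dsc Z) := ⊥

instance (Z : Type) : DiscreteTopology (Dsc Z) := ⟨rfl⟩

instance (Z : Type) [Nonempty Z] : Nonempty (Dsc Z) := ⟨⟨Classical.arbitrary Z⟩⟩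

/-- the factors -/
def Fac (I₀ Y Z : Type) : Option I₀ → Type
  | none => Y
  | some _ => Z

instance instTopFac (I₀ Y Z : Type) [h : TopologicalSpace Y] [h' : TopologicalSpace Z] :
    ∀ i : Option I₀, TopologicalSpace (Fac I₀ Y Z i)
  | none => h
  | some _ => h'

variable {I₀ Y Z : Type} [TopologicalSpace Y] [TopologicalSpace Z]

/-- splitting off the coordinate `none`. -/
def splitHomeo : (∀ i, Fac I₀ Y Z i) ≃ₜ Y × (I₀ → Z) where
  toFun x := (x none, fun ξ => x (some ξ))
  invFun p := fun i => match i with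
    | none => p.1
    | some ξ => p.2 ξ
  left_inv x := by
    funext i
    cases i <;> rfl
  right_inv p := rfl
  continuous_toFun := by
    refine Continuous.prodMk (continuous_apply (none : Option I₀)) ?_
    exact continuous_pi fun ξ => continuous_apply (some ξ : Option I₀)
  continuous_invFun := by
    refine continuous_pi fun i => ?_
    cases i with
    | none => exact continuous_fst
    | some ξ => exact (continuous_apply ξ).comp continuous_snd

/-- the corresponding subset of the product -/
def lft (D : Set (Y × (I₀ → Z))) : Set (∀ i, Fac I₀ Y Z i) := splitHomeo ⁻¹' D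

/-- the subspaces are homeomorphic -/
def lftHomeo (D : Set (Y × (I₀ → Z))) : lft D ≃ₜ D :=
  splitHomeo.subtype fun _ => Iff.rfl

instance t1Fac [T1Space Y] [T1Space Z] : ∀ i, T1Space (Fac I₀ Y Z i)
  | none => ‹T1Space Y›
  | some _ => ‹T1Space Z›

open Classical in
lemma fill_aux [Nonempty Y] [Nonempty Z] (D : Set (Y × (I₀ → Z))) (J : Set (Option I₀))
    (h : ∀ (y : Y) (a : I₀ → Z), ∃ e, (y, e) ∈ D ∧ ∀ ξ, some ξ ∈ J → e ξ = a ξ) :
    proj J '' (lft D) = Set.univ := by
  rw [eq_univ_iff_forall]
  intro a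
  let y : Y := if h : none ∈ J then a ⟨none, h⟩ else Classical.arbitrary Y
  let b : I₀ → Z := fun ξ => if h : some ξ ∈ J then a ⟨some ξ, h⟩ else Classical.arbitrary Z
  obtain ⟨e, heD, he⟩ := h y b
  refine ⟨splitHomeo.symm (y, e), ?_, ?_⟩
  · change splitHomeo (splitHomeo.symm (y, e)) ∈ D
    rw [Homeomorph.apply_symm_apply]
    exact heD
  · funext j
    obtain ⟨j, hj⟩ := j
    cases j with
    | none =>
      change y = a ⟨none, hj⟩
      simp only [y, hj, dif_pos]
    | some ξ =>
      change e ξ = a ⟨some ξ, hj⟩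
      rw [he ξ hj]
      simp only [b, hj, dif_pos]

lemma fillsCountable_lft [Nonempty Y] [Nonempty Z] (D : Set (Y × (I₀ → Z)))
    (h : ∀ J : Set I₀, J.Countable → ∀ (y : Y) (a : I₀ → Z), ∃ e, (y, e) ∈ D ∧
      ∀ ξ ∈ J, e ξ = a ξ) : FillsCountable (lft D) := by
  intro J _ hJ
  apply fill_aux
  intro y a
  have hc : (some ⁻¹' J : Set I₀).Countable := hJ.preimage (Option.some_injective _)
  exact h _ hc y a

lemma fillsFinite_lft [Nonempty Y] [Nonempty Z] (D : Set (Y × (I₀ → Z)))
    (h : ∀ J : Set I₀, J.Finite → ∀ (y : Y) (a : I₀ → Z), ∃ e, (y, e) ∈ D ∧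
      ∀ ξ ∈ J, e ξ = a ξ) : FillsFinite (lft D) := by
  intro J _ hJ
  apply fill_aux
  intro y a
  have hc : (some ⁻¹' J : Set I₀).Finite := hJ.preimage (Option.some_injective _).injOn
  exact h _ hc y a

end Pool.Agent.Helper23.Fill
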