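import Mathlib
import Pool.Agent.Helper23.Fill.Bridge

set_option autoImplicit false

open Topology Set

namespace Pool.Agent.Helper23.Fill

variable {Y Ω Z : Type} [TopologicalSpace Y]

lemma isOpen_agree (e : Ω → Dsc Z) (F : Finset Ω) : IsOpen {e' : Ω → Dsc Z | ∀ ξ ∈ F, e' ξ = e ξ} := by
  have : {e' : Ω → Dsc Z | ∀ ξ ∈ F, e' ξ = e ξ} = ⋂ ξ ∈ F, {e' | e' ξ = e ξ} := by
    ext e'; simp
  rw [this]
  apply isOpen_biInter_finset
  intro ξ _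
  have hc : Continuous fun e' : Ω → Dsc Z => e' ξ := continuous_apply ξ
  exact (isOpen_discrete {e ξ}).preimage hc

lemma isClopen_agree (e : Ω → Dsc Z) (F : Finset Ω) :
    IsClopen {e' : Ω → Dsc Z | ∀ ξ ∈ F, e' ξ = e ξ} := by
  have : {e' : Ω → Dsc Z | ∀ ξ ∈ F, e' ξ = e ξ} = ⋂ ξ ∈ F, {e' | e' ξ = e ξ} := by
    ext e'; simp
  rw [this]
  apply isClopen_biInter_finset
  intro ξ _
  have hc : Continuous fun e' : Ω → Dsc Z => e' ξ := continuous_apply ξ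
  exact (isClopen_discrete {e ξ}).preimage hc

lemma isOpen_of_local {D : Set (Y × (Ω → Dsc Z))} (W : Set D)
    (h : ∀ p ∈ W, ∃ O : Set Y, IsOpen O ∧ p.1.1 ∈ O ∧ ∃ F : Finset Ω, ∀ q : D, q.1.1 ∈ O →
      (∀ ξ ∈ F, q.1.2 ξ = p.1.2 ξ) → q ∈ W) : IsOpen W := by
  rw [isOpen_iff_mem_nhds]
  intro p hp
  obtain ⟨O, hO, hpO, F, hF⟩ := h p hp
  have h1 : IsOpen ((fun q : D => q.1.1) ⁻¹' O) :=
    hO.preimage (continuous_fst.comp continuous_subtype_val)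
  have h2 : IsOpen ((fun q : D => q.1.2) ⁻¹' {e' | ∀ ξ ∈ F, e' ξ = p.1.2 ξ}) :=
    (isOpen_agree _ F).preimage (continuous_snd.comp continuous_subtype_val)
  refine Filter.mem_of_superset ((h1.inter h2).mem_nhds ⟨hpO, fun _ _ => rfl⟩) ?_
  rintro q ⟨hq1, hq2⟩
  exact hF q hq1 hq2

lemma exists_local {D : Set (Y × (Ω → Dsc Z))} (W : Set D) (p : D) (hW : W ∈ 𝓝 p) :
    ∃ O : Set Y, IsOpen O ∧ p.1.1 ∈ O ∧ ∃ F : Finset Ω, ∀ q : D, q.1.1 ∈ O →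
      (∀ ξ ∈ F, q.1.2 ξ = p.1.2 ξ) → q ∈ W := by
  rw [mem_nhds_subtype] at hW
  obtain ⟨U, hU, hUW⟩ := hW
  rw [show (p : Y × (Ω → Dsc Z)) = (p.1.1, p.1.2) from rfl, nhds_prod_eq,
    Filter.mem_prod_iff] at hU
  obtain ⟨O, hO, V, hV, hOV⟩ := hU
  obtain ⟨O', hO'O, hO', hpO'⟩ := mem_nhds_iff.1 hO
  obtain ⟨V', hV'V, hV', hpV'⟩ := mem_nhds_iff.1 hV
  rw [isOpen_pi_iff] at hV'
  obtain ⟨F, u, hu, hFu⟩ := hV' _ hpV'
  refine ⟨O', hO', hpO', F, fun q hq1 hq2 => hUW (hOV ⟨hO'O hq1, hV'V (hFu ?_)⟩)⟩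
  intro ξ hξ
  rw [hq2 ξ hξ]
  exact (hu ξ hξ).2

/-- a space where points are separated from closed sets by clopen sets is completely regular -/
lemma completelyRegular_of_clopen (T : Type) [TopologicalSpace T]
    (h : ∀ (x : T) (K : Set T), IsClosed K → x ∉ K → ∃ W : Set T, IsClopen W ∧ x ∈ W ∧
      Disjoint W K) : CompletelyRegularSpace T := by
  classical
  refine ⟨fun x K hK hx => ?_⟩
  obtain ⟨W, hW, hxW, hWK⟩ := h x K hK hx
  refine ⟨fun y => if y ∈ W then 0 else 1, ?_, ?_, ?_⟩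
  · apply continuous_const.if _ continuous_const
    intro a ha
    have : frontier {x | x ∈ W} = ∅ := hW.frontier_eq
    rw [this] at ha
    exact absurd ha (Set.notMem_empty a)
  · simp [hxW]
  · intro y hy
    have : y ∉ W := fun hyW => (Set.disjoint_left.1 hWK hyW) hy
    simp [this]

end Pool.Agent.Helper23.Fill
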