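import Mathlib

set_option autoImplicit false

/-!
A tree lemma for `Σ`-products of discrete spaces.
-/

open Set

namespace Pool.Agent.Helper23.Fill

variable {Ω V R : Type}

/-- cylinder sets -/
def cy (x : Ω → V) (F : Finset Ω) : Set (Ω → V) := {y | ∀ ξ ∈ F, y ξ = x ξ}

lemma self_mem_cy (x : Ω → V) (F : Finset Ω) : x ∈ cy x F := fun _ _ => rfl

lemma cy_anti (x : Ω → V) {F G : Finset Ω} (h : F ⊆ G) : cy x G ⊆ cy x F :=
  fun _ hy ξ hξ => hy ξ (h hξ)

lemma cy_eq {x y : Ω → V} {F : Finset Ω} (h : y ∈ cy x F) : cy y F = cy x F := by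
  ext z
  constructor
  · intro hz ξ hξ; rw [hz ξ hξ, h ξ hξ]
  · intro hz ξ hξ; rw [hz ξ hξ, h ξ hξ]

lemma cy_symm {x y : Ω → V} {F : Finset Ω} (h : y ∈ cy x F) : x ∈ cy y F :=
  fun ξ hξ => (h ξ hξ).symm

lemma exists_finset_seq (S : Set Ω) (hS : S.Countable) :
    ∃ f : ℕ → Finset Ω, ∀ ξ ∈ S, ∃ n, ξ ∈ f n := by
  classical
  rcases S.eq_empty_or_nonempty with h | h
  · exact ⟨fun _ => ∅, fun ξ hξ => by rw [h] at hξ; exact absurd hξ (Set.notMem_empty _)⟩
  · obtain ⟨g, hg⟩ := hS.exists_eq_range h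
    refine ⟨fun n => {g n}, fun ξ hξ => ?_⟩
    rw [hg] at hξ
    obtain ⟨n, hn⟩ := hξ
    exact ⟨n, by simp [hn]⟩

theorem tree (c : V) (Bad : Set (Ω → V) → Prop)
    (A : Set (Ω → V) → Set (Ω → V)) (hAc : ∀ C, (A C).Countable)
    (hAs : ∀ C, ∀ a ∈ A C, {ξ | a ξ ≠ c}.Countable)
    (hAC : ∀ C, A C ⊆ C)
    (hlim : ∀ (y : Ω → V) (F : ℕ → Finset Ω), {ξ | y ξ ≠ c}.Countable →
      (∀ n, Bad (cy y (F n))) →
      (∀ ξ, ∃ n₀, ∀ n ≥ n₀, ∀ a ∈ A (cy y (F n)), a ξ = y ξ) → False) :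
    ∃ cell : (Ω → V) → Finset Ω, (∀ x, ¬ Bad (cy x (cell x))) ∧
      ∀ x y, y ∈ cy x (cell x) → cell y = cell x := by
  classical
  have hf : ∀ C : Set (Ω → V), ∃ f : ℕ → Finset Ω, ∀ ξ, (∃ a ∈ A C, a ξ ≠ c) → ∃ n, ξ ∈ f n := by
    intro C
    have hc : (⋃ a ∈ A C, {ξ | a ξ ≠ c}).Countable := (hAc C).biUnion (hAs C)
    obtain ⟨f, hf⟩ := exists_finset_seq _ hc
    refine ⟨f, fun ξ ⟨a, ha, haξ⟩ => hf ξ ?_⟩
    exact mem_biUnion ha haξ
  choose f hf using hf
  -- the states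
  obtain ⟨st, hst0, hst⟩ : ∃ st : ℕ → (Ω → V) → Finset Ω × (ℕ → Finset Ω),
      (∀ x, st 0 x = (∅, fun _ => ∅)) ∧
      ∀ n x, st (n + 1) x =
        ((st n x).1 ∪ (Finset.range (n + 1)).biUnion
            (fun k => (st n x).2 k ∪ f (cy x (st n x).1) k),
          fun k => (st n x).2 k ∪ f (cy x (st n x).1) k) :=
    ⟨fun n x => Nat.rec (∅, fun _ => ∅) (fun n S => (S.1 ∪ (Finset.range (n + 1)).biUnion
            (fun k => S.2 k ∪ f (cy x S.1) k),
          fun k => S.2 k ∪ f (cy x S.1) k)) n, fun _ => rfl, fun _ _ => rfl⟩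
  have hmono1 : ∀ x, Monotone fun n => (st n x).1 := by
    intro x
    apply monotone_nat_of_le_succ
    intro n
    rw [hst]
    exact Finset.subset_union_left
  have hmono2 : ∀ x k, Monotone fun n => (st n x).2 k := by
    intro x k
    apply monotone_nat_of_le_succ
    intro n
    simp only [hst]
    exact Finset.subset_union_left
  have hin : ∀ x m k, f (cy x (st m x).1) k ⊆ (st (max m k + 1) x).1 := by
    intro x m k
    have h1 : f (cy x (st m x).1) k ⊆ (st (m + 1) x).2 k := by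
      rw [hst]
      exact Finset.subset_union_right
    by_cases hkm : k ≤ m
    · rw [max_eq_left hkm, hst]
      refine subset_trans ?_ Finset.subset_union_right
      intro ξ hξ
      rw [Finset.mem_biUnion]
      exact ⟨k, by rw [Finset.mem_range]; omega, Finset.mem_union_right _ hξ⟩
    · push Not at hkm
      rw [max_eq_right hkm.le, hst]
      refine subset_trans ?_ Finset.subset_union_right
      intro ξ hξ
      rw [Finset.mem_biUnion]
      refine ⟨k, by rw [Finset.mem_range]; omega, Finset.mem_union_left _ ?_⟩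
      exact hmono2 x k (by omega : m + 1 ≤ k) (h1 hξ)
  have hloc : ∀ n x y, y ∈ cy x (st n x).1 → st n y = st n x := by
    intro n
    induction n with
    | zero => intro x y _; rw [hst0, hst0]
    | succ n ih =>
      intro x y hy
      have hy' : y ∈ cy x (st n x).1 := cy_anti x (hmono1 x (Nat.le_succ n)) hy
      have h1 := ih x y hy'
      rw [hst, hst, h1, cy_eq hy']
  -- every point is captured
  have hcap : ∀ x, ∃ n, ¬ Bad (cy x (st n x).1) := by
    intro x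
    by_contra hcon
    push Not at hcon
    let D : Set Ω := ⋃ n, {ξ | ξ ∈ (st n x).1}
    let y : Ω → V := fun ξ => if ξ ∈ D then x ξ else c
    have hDc : D.Countable := countable_iUnion fun n => (st n x).1.countable_toSet
    have hmemD : ∀ n ξ, ξ ∈ (st n x).1 → ξ ∈ D := fun n ξ h => mem_iUnion.2 ⟨n, h⟩
    have hyx : ∀ n, y ∈ cy x (st n x).1 := by
      intro n ξ hξ
      simp only [y, if_pos (hmemD n ξ hξ)]
    refine hlim y (fun n => (st n x).1) ?_ ?_ ?_
    · apply hDc.mono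
      intro ξ hξ
      by_contra hξD
      apply hξ
      simp only [y, if_neg hξD]
    · intro n
      rw [cy_eq (hyx n)]
      exact hcon n
    · intro ξ
      by_cases hξD : ξ ∈ D
      · obtain ⟨n₀, hn₀⟩ := mem_iUnion.1 hξD
        refine ⟨n₀, fun n hn a ha => ?_⟩
        exact (hAC _ ha) ξ (hmono1 x hn hn₀)
      · refine ⟨0, fun n _ a ha => ?_⟩
        rw [cy_eq (hyx n)] at ha
        have : y ξ = c := by simp only [y, if_neg hξD]
        rw [this]
        by_contra hne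
        obtain ⟨k, hk⟩ := hf _ ξ ⟨a, ha, hne⟩
        exact hξD (hmemD _ ξ (hin x n k hk))
  refine ⟨fun x => (st (Nat.find (hcap x)) x).1, fun x => Nat.find_spec (hcap x), ?_⟩
  intro x y hy
  have hle : ∀ m ≤ Nat.find (hcap x), st m y = st m x ∧ y ∈ cy x (st m x).1 := by
    intro m hm
    have h1 : y ∈ cy x (st m x).1 := cy_anti x (hmono1 x hm) hy
    exact ⟨hloc m x y h1, h1⟩
  have hfind : Nat.find (hcap y) = Nat.find (hcap x) := by
    rw [Nat.find_eq_iff]
    constructor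
    · obtain ⟨h1, h2⟩ := hle _ le_rfl
      rw [h1, cy_eq h2]
      exact Nat.find_spec (hcap x)
    · intro m hm
      obtain ⟨h1, h2⟩ := hle m hm.le
      rw [h1, cy_eq h2]
      exact Nat.find_min (hcap x) hm
  simp only [hfind]
  rw [(hle _ le_rfl).1]

/-- a cell is good for a family -/
def Good (T : Option R → Set (Ω → V)) (C : Set (Ω → V)) : Prop :=
  ∃ B : Finset R, (∀ a ∈ C, a ∉ T none) ∧ ∀ r, r ∉ B → ∀ a ∈ C, a ∉ T (some r)

lemma exists_countable_of_not_good (T : Option R → Set (Ω → V)) (C : Set (Ω → V))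
    (h : ¬ Good T C) : ∃ A : Set (Ω → V), A.Countable ∧ A ⊆ C ∧ (∀ a ∈ A, ∃ i, a ∈ T i) ∧
      ∀ B : Finset R, (∃ a ∈ A, a ∈ T none) ∨ ∃ r, r ∉ B ∧ ∃ a ∈ A, a ∈ T (some r) := by
  classical
  by_cases h0 : ∃ a ∈ C, a ∈ T none
  · obtain ⟨a, haC, haT⟩ := h0
    exact ⟨{a}, countable_singleton a, by simpa using haC, fun b hb => ⟨none, by
      rw [mem_singleton_iff.1 hb]; exact haT⟩, fun B => Or.inl ⟨a, rfl, haT⟩⟩
  · push Not at h0
    have hinf : {r : R | ∃ a ∈ C, a ∈ T (some r)}.Infinite := by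
      intro hfin
      apply h
      refine ⟨hfin.toFinset, h0, fun r hr a haC haT => hr ?_⟩
      rw [Set.Finite.mem_toFinset]
      exact ⟨a, haC, haT⟩
    let g := hinf.natEmbedding
    have hg : ∀ n, ∃ a ∈ C, a ∈ T (some (g n : R)) := fun n => (g n).2
    choose a haC haT using hg
    refine ⟨range a, countable_range a, ?_, ?_, ?_⟩
    · rintro _ ⟨n, rfl⟩; exact haC n
    · rintro _ ⟨n, rfl⟩; exact ⟨_, haT n⟩
    · intro B
      right
      have : ∃ n, (g n : R) ∉ B := by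
        by_contra hcon
        push Not at hcon
        have h1 : Function.Injective fun n => (g n : R) :=
          Subtype.val_injective.comp g.injective
        exact Set.infinite_of_injective_forall_mem h1 hcon B.finite_toSet
      obtain ⟨n, hn⟩ := this
      exact ⟨g n, hn, a n, ⟨n, rfl⟩, haT n⟩

/-- The separation lemma for two families. -/
theorem sep_lemma (c : V) (T T' : Option R → Set (Ω → V))
    (hTs : ∀ i, ∀ a ∈ T i, {ξ | a ξ ≠ c}.Countable)
    (hTs' : ∀ i, ∀ a ∈ T' i, {ξ | a ξ ≠ c}.Countable)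
    (hT : ∀ y : Ω → V, {ξ | y ξ ≠ c}.Countable → y ∉ T none →
      ∃ F : Finset Ω, Good T (cy y F))
    (hT' : ∀ y : Ω → V, {ξ | y ξ ≠ c}.Countable → y ∉ T' none →
      ∃ F : Finset Ω, Good T' (cy y F))
    (hdis : ∀ y, y ∈ T none → y ∉ T' none) :
    ∃ cell : (Ω → V) → Finset Ω, (∀ x, Good T (cy x (cell x)) ∨ Good T' (cy x (cell x))) ∧
      ∀ x y, y ∈ cy x (cell x) → cell y = cell x := by
  classical
  have hA : ∀ C : Set (Ω → V), ∃ A : Set (Ω → V), A.Countable ∧ A ⊆ C ∧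
      (∀ a ∈ A, ∃ i, a ∈ T i) ∧ (¬ Good T C → ∀ B : Finset R, (∃ a ∈ A, a ∈ T none) ∨
        ∃ r, r ∉ B ∧ ∃ a ∈ A, a ∈ T (some r)) := by
    intro C
    by_cases hC : Good T C
    · exact ⟨∅, countable_empty, empty_subset _, fun a ha => absurd ha (Set.notMem_empty _),
        fun h => absurd hC h⟩
    · obtain ⟨A, h1, h2, h3, h4⟩ := exists_countable_of_not_good T C hC
      exact ⟨A, h1, h2, h3, fun _ => h4⟩
  have hA' : ∀ C : Set (Ω → V), ∃ A : Set (Ω → V), A.Countable ∧ A ⊆ C ∧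
      (∀ a ∈ A, ∃ i, a ∈ T' i) ∧ (¬ Good T' C → ∀ B : Finset R, (∃ a ∈ A, a ∈ T' none) ∨
        ∃ r, r ∉ B ∧ ∃ a ∈ A, a ∈ T' (some r)) := by
    intro C
    by_cases hC : Good T' C
    · exact ⟨∅, countable_empty, empty_subset _, fun a ha => absurd ha (Set.notMem_empty _),
        fun h => absurd hC h⟩
    · obtain ⟨A, h1, h2, h3, h4⟩ := exists_countable_of_not_good T' C hC
      exact ⟨A, h1, h2, h3, fun _ => h4⟩
  choose A hAc hAC hAT hA using hA
  choose A' hAc' hAC' hAT' hA' using hA'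
  -- contradiction helper
  have key : ∀ (S : Option R → Set (Ω → V)) (E : Set (Ω → V) → Set (Ω → V))
      (y : Ω → V) (F : ℕ → Finset Ω) (F₀ : Finset Ω),
      (∀ n, ∀ B : Finset R, (∃ a ∈ E (cy y (F n)), a ∈ S none) ∨
        ∃ r, r ∉ B ∧ ∃ a ∈ E (cy y (F n)), a ∈ S (some r)) →
      (∀ ξ, ∃ n₀, ∀ n ≥ n₀, ∀ a ∈ E (cy y (F n)), a ξ = y ξ) →
      Good S (cy y F₀) → False := by
    intro S E y F F₀ h1 h2 ⟨B, hB0, hB⟩
    choose n₀ hn₀ using h2
    have hag : ∀ a ∈ E (cy y (F (F₀.sup n₀))), a ∈ cy y F₀ := by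
      intro a ha ξ hξ
      exact hn₀ ξ _ (Finset.le_sup hξ) a ha
    rcases h1 (F₀.sup n₀) B with ⟨a, ha, haS⟩ | ⟨r, hr, a, ha, haS⟩
    · exact hB0 a (hag a ha) haS
    · exact hB r hr a (hag a ha) haS
  obtain ⟨cell, hcell, hpart⟩ := tree c (fun C => ¬ Good T C ∧ ¬ Good T' C)
    (fun C => A C ∪ A' C) (fun C => (hAc C).union (hAc' C))
    (by
      rintro C a (ha | ha)
      · obtain ⟨i, hi⟩ := hAT C a ha
        exact hTs i a hi
      · obtain ⟨i, hi⟩ := hAT' C a ha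
        exact hTs' i a hi)
    (fun C => union_subset (hAC C) (hAC' C))
    (by
      intro y F hy hbad hlim
      by_cases hyT : y ∈ T none
      · obtain ⟨F₀, hF₀⟩ := hT' y hy (hdis y hyT)
        refine key T' A' y F F₀ (fun n => hA' _ (hbad n).2) ?_ hF₀
        intro ξ
        obtain ⟨n₀, hn₀⟩ := hlim ξ
        exact ⟨n₀, fun n hn a ha => hn₀ n hn a (Or.inr ha)⟩
      · obtain ⟨F₀, hF₀⟩ := hT y hy hyT
        refine key T A y F F₀ (fun n => hA _ (hbad n).1) ?_ hF₀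
        intro ξ
        obtain ⟨n₀, hn₀⟩ := hlim ξ
        exact ⟨n₀, fun n hn a ha => hn₀ n hn a (Or.inl ha)⟩)
  refine ⟨cell, fun x => ?_, hpart⟩
  have := hcell x
  tauto

end Pool.Agent.Helper23.Fill
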