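import Mathlib
import Pool.Agent.Helper23.Fill.Tree
import Pool.Agent.Helper23.Fill.LocalOpen

set_option autoImplicit false

/-!
The normal subspace filling all countable subproducts with a non-normal factor.
-/

open Topology Set

namespace Pool.Agent.Helper23.Fill

/-- points of the plank-like space -/
inductive Q2 (Ω R : Type) : Type
  | lo : R → Q2 Ω R
  | hi : Finset Ω → Q2 Ω R
  | ed : Finset Ω → R → Q2 Ω R

namespace Q2

variable {Ω R : Type}

/-- the local condition for open sets -/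
def OpenCond (U : Set (Q2 Ω R)) : Prop :=
  (∀ r, lo r ∈ U → ∃ F : Finset Ω, ∀ s, F ⊆ s → ed s r ∈ U) ∧
  (∀ s, hi s ∈ U → ∃ A : Finset R, ∀ r, r ∉ A → ed s r ∈ U)

open Classical in
instance : TopologicalSpace (Q2 Ω R) where
  IsOpen U := OpenCond U
  isOpen_univ := ⟨fun _ _ => ⟨∅, fun _ _ => trivial⟩, fun _ _ => ⟨∅, fun _ _ => trivial⟩⟩
  isOpen_inter := by
    rintro U V ⟨u2, u3⟩ ⟨v2, v3⟩
    refine ⟨?_, ?_⟩
    · rintro r ⟨hU, hV⟩
      obtain ⟨F, hF⟩ := u2 r hU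
      obtain ⟨G, hG⟩ := v2 r hV
      exact ⟨F ∪ G, fun s hs => ⟨hF s (Finset.subset_union_left.trans hs),
        hG s (Finset.subset_union_right.trans hs)⟩⟩
    · rintro s ⟨hU, hV⟩
      obtain ⟨F, hF⟩ := u3 s hU
      obtain ⟨G, hG⟩ := v3 s hV
      refine ⟨F ∪ G, fun r hr => ?_⟩
      rw [Finset.notMem_union] at hr
      exact ⟨hF r hr.1, hG r hr.2⟩
  isOpen_sUnion := by
    intro S hS
    refine ⟨?_, ?_⟩
    · rintro r ⟨U, hU, hm⟩
      obtain ⟨F, hF⟩ := (hS U hU).1 r hm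
      exact ⟨F, fun s hs => ⟨U, hU, hF s hs⟩⟩
    · rintro s ⟨U, hU, hm⟩
      obtain ⟨F, hF⟩ := (hS U hU).2 s hm
      exact ⟨F, fun r hr => ⟨U, hU, hF r hr⟩⟩

lemma isOpen_def (U : Set (Q2 Ω R)) : IsOpen U ↔ OpenCond U := Iff.rfl

lemma isClosed_def (U : Set (Q2 Ω R)) : IsClosed U ↔ OpenCond Uᶜ := by
  rw [← isOpen_compl_iff]; rfl

instance [Infinite Ω] : T1Space (Q2 Ω R) := by
  classical
  refine ⟨fun x => ?_⟩
  rw [isClosed_def]
  refine ⟨?_, ?_⟩
  · intro r _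
    cases x with
    | lo r' => exact ⟨∅, fun s _ => by simp⟩
    | hi t => exact ⟨∅, fun s _ => by simp⟩
    | ed t r' =>
      obtain ⟨ξ, hξ⟩ := Infinite.exists_notMem_finset t
      refine ⟨{ξ}, fun s hs => ?_⟩
      have : s ≠ t := by
        rintro rfl
        exact hξ (hs (Finset.mem_singleton_self ξ))
      simp [this]
  · intro s _
    cases x with
    | lo r' => exact ⟨∅, fun s _ => by simp⟩
    | hi t => exact ⟨∅, fun s _ => by simp⟩
    | ed t r' =>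
      refine ⟨{r'}, fun r hr => ?_⟩
      rw [Finset.mem_singleton] at hr
      simp [hr]

/-- basic neighbourhood of `lo r` -/
def nlo (r : R) (F : Finset Ω) : Set (Q2 Ω R) := {y | y = lo r ∨ ∃ s, F ⊆ s ∧ y = ed s r}

/-- basic neighbourhood of `hi s` -/
def nhi (s : Finset Ω) (A : Finset R) : Set (Q2 Ω R) := {y | y = hi s ∨ ∃ r, r ∉ A ∧ y = ed s r}

lemma isOpen_nlo (r : R) (F : Finset Ω) : IsOpen (nlo r F) := by
  rw [isOpen_def]
  refine ⟨?_, ?_⟩
  · rintro r' (h | ⟨s, _, h⟩)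
    · cases h
      exact ⟨F, fun s hs => Or.inr ⟨s, hs, rfl⟩⟩
    · cases h
  · rintro s' (h | ⟨s, _, h⟩) <;> cases h

lemma isOpen_nhi (s : Finset Ω) (A : Finset R) : IsOpen (nhi s A) := by
  rw [isOpen_def]
  refine ⟨?_, ?_⟩
  · rintro r' (h | ⟨s, _, h⟩) <;> cases h
  · rintro s' (h | ⟨r, _, h⟩)
    · cases h
      exact ⟨A, fun r hr => Or.inr ⟨r, hr, rfl⟩⟩
    · cases h

lemma isOpen_ed (s : Finset Ω) (r : R) : IsOpen ({ed s r} : Set (Q2 Ω R)) := by
  rw [isOpen_def]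
  refine ⟨?_, ?_⟩
  · intro r' h; cases h
  · intro s' h; cases h

open Cardinal in
/-- The space is not normal. -/
theorem not_normal [Infinite Ω] (hΩR : #Ω < #R) : ¬ NormalSpace (Q2 Ω R) := by
  classical
  intro h
  have h1 : IsClosed (range (lo : R → Q2 Ω R)) := by
    rw [isClosed_def]
    exact ⟨fun r _ => ⟨∅, fun s _ => by simp⟩, fun s _ => ⟨∅, fun r _ => by simp⟩⟩
  have h2 : IsClosed (range (hi : Finset Ω → Q2 Ω R)) := by
    rw [isClosed_def]
    exact ⟨fun r _ => ⟨∅, fun s _ => by simp⟩, fun s _ => ⟨∅, fun r _ => by simp⟩⟩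
  have h3 : Disjoint (range (lo : R → Q2 Ω R)) (range (hi : Finset Ω → Q2 Ω R)) := by
    rw [Set.disjoint_left]
    rintro _ ⟨r, rfl⟩ ⟨s, hs⟩
    cases hs
  obtain ⟨U, V, hU, hV, hAU, hBV, hUV⟩ := h.normal _ _ h1 h2 h3
  have hex : ∀ r : R, ∃ F : Finset Ω, ∀ s, F ⊆ s → ed s r ∈ U :=
    fun r => hU.1 r (hAU (mem_range_self r))
  choose F hF using hex
  have hfib : ∃ F₀ : Finset Ω, {r | F r = F₀}.Infinite := by
    by_contra hcon
    push Not at hcon
    have hcover : (Set.univ : Set R) ⊆ ⋃ F₀ : Finset Ω, {r | F r = F₀} := by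
      intro r _
      exact mem_iUnion.2 ⟨F r, rfl⟩
    have hle : #(Set.univ : Set R) ≤ #(⋃ F₀ : Finset Ω, {r | F r = F₀} : Set R) :=
      mk_le_mk_of_subset hcover
    rw [mk_univ] at hle
    have h2 : #(⋃ F₀ : Finset Ω, {r | F r = F₀} : Set R) ≤ #Ω := by
      refine (mk_iUnion_le _).trans ?_
      have hfin : ⨆ i : Finset Ω, #{r | F r = i} ≤ ℵ₀ := by
        apply ciSup_le'
        intro i
        exact (hcon i).lt_aleph0.le
      calc #(Finset Ω) * ⨆ i : Finset Ω, #{r | F r = i}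
          ≤ #(Finset Ω) * ℵ₀ := by gcongr
        _ = #Ω := by
          rw [mk_finset_of_infinite, mul_aleph0_eq]
          exact aleph0_le_mk Ω
    exact absurd (hle.trans h2) (not_le.2 hΩR)
  obtain ⟨F₀, hF₀⟩ := hfib
  obtain ⟨A, hA⟩ := hV.2 F₀ (hBV (mem_range_self F₀))
  obtain ⟨r, hr, hrA⟩ := hF₀.exists_notMem_finset A
  have m1 : (ed F₀ r : Q2 Ω R) ∈ U := hF r F₀ (by rw [show F r = F₀ from hr])
  have m2 : (ed F₀ r : Q2 Ω R) ∈ V := hA r hrA
  exact Set.disjoint_left.1 hUV m1 m2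

end Q2

open Q2

variable {Ω R : Type}

/-- the centre of the `Σ`-product over a point -/
def cen : Q2 Ω R → Option R
  | lo r => some r
  | hi _ => none
  | ed _ _ => none

/-- The subspace -/
def DB (Ω R : Type) : Set (Q2 Ω R × (Ω → Dsc (Option R))) :=
  {p | {ξ | p.2 ξ ≠ ⟨cen p.1⟩}.Countable}

lemma DB_fill (J : Set Ω) (hJ : J.Countable) (y : Q2 Ω R) (a : Ω → Dsc (Option R)) :
    ∃ e, (y, e) ∈ DB Ω R ∧ ∀ ξ ∈ J, e ξ = a ξ := by
  classical
  refine ⟨fun ξ => if ξ ∈ J then a ξ else ⟨cen y⟩, ?_, fun ξ hξ => by simp [hξ]⟩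
  apply hJ.mono
  intro ξ hξ
  by_contra hcon
  apply hξ
  simp [hcon]

/-- The slice of a subset of `DB` over a point. -/
def sl (H : Set (DB Ω R)) (x : Q2 Ω R) : Set (Ω → Dsc (Option R)) :=
  {e | ∃ h : (x, e) ∈ DB Ω R, (⟨(x, e), h⟩ : DB Ω R) ∈ H}

lemma sl_countable (H : Set (DB Ω R)) (x : Q2 Ω R) (e : Ω → Dsc (Option R)) (he : e ∈ sl H x) :
    {ξ | e ξ ≠ ⟨cen x⟩}.Countable := he.1

lemma mem_sl {H : Set (DB Ω R)} (q : DB Ω R) : q ∈ H ↔ q.1.2 ∈ sl H q.1.1 := by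
  constructor
  · intro h; exact ⟨q.2, h⟩
  · rintro ⟨_, h⟩; exact h

/-- closedness in terms of slices -/
lemma closed_sl {H : Set (DB Ω R)} (hH : IsClosed H) (x : Q2 Ω R) (e : Ω → Dsc (Option R))
    (he : {ξ | e ξ ≠ ⟨cen x⟩}.Countable) (hne : e ∉ sl H x) :
    ∃ O : Set (Q2 Ω R), IsOpen O ∧ x ∈ O ∧ ∃ F : Finset Ω, ∀ x' ∈ O, ∀ e' ∈ cy e F,
      e' ∉ sl H x' := by
  have hp : (⟨(x, e), he⟩ : DB Ω R) ∉ H := fun h => hne ⟨he, h⟩
  obtain ⟨O, hO, hxO, F, hF⟩ := exists_local Hᶜ ⟨(x, e), he⟩ (hH.isOpen_compl.mem_nhds hp)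
  refine ⟨O, hO, hxO, F, fun x' hx' e' he' hmem => ?_⟩
  obtain ⟨h1, h2⟩ := hmem
  exact hF ⟨(x', e'), h1⟩ hx' he' h2

lemma closed_lo {H : Set (DB Ω R)} (hH : IsClosed H) (r : R) (e : Ω → Dsc (Option R))
    (he : {ξ | e ξ ≠ ⟨some r⟩}.Countable) (hne : e ∉ sl H (lo r)) :
    ∃ F : Finset Ω, (∀ e' ∈ cy e F, e' ∉ sl H (lo r)) ∧ ∀ s, F ⊆ s → ∀ e' ∈ cy e F,
      e' ∉ sl H (ed s r) := by
  classical
  obtain ⟨O, hO, hxO, F, hF⟩ := closed_sl hH (lo r) e he hne
  obtain ⟨G, hG⟩ := hO.1 r hxO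
  refine ⟨F ∪ G, fun e' he' => hF _ hxO e' (cy_anti e Finset.subset_union_left he'),
    fun s hs e' he' => hF _ (hG s (Finset.subset_union_right.trans hs)) e'
      (cy_anti e Finset.subset_union_left he')⟩

lemma closed_hi {H : Set (DB Ω R)} (hH : IsClosed H) (s : Finset Ω) (e : Ω → Dsc (Option R))
    (he : {ξ | e ξ ≠ ⟨none⟩}.Countable) (hne : e ∉ sl H (hi s)) :
    ∃ (F : Finset Ω) (A : Finset R), (∀ e' ∈ cy e F, e' ∉ sl H (hi s)) ∧
      ∀ r, r ∉ A → ∀ e' ∈ cy e F, e' ∉ sl H (ed s r) := by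
  obtain ⟨O, hO, hxO, F, hF⟩ := closed_sl hH (hi s) e he hne
  obtain ⟨A, hA⟩ := hO.2 s hxO
  exact ⟨F, A, hF _ hxO, fun r hr => hF _ (hA r hr)⟩

lemma closed_ed {H : Set (DB Ω R)} (hH : IsClosed H) (s : Finset Ω) (r : R)
    (e : Ω → Dsc (Option R))
    (he : {ξ | e ξ ≠ ⟨none⟩}.Countable) (hne : e ∉ sl H (ed s r)) :
    ∃ (F : Finset Ω), (∀ e' ∈ cy e F, e' ∉ sl H (ed s r)) := by
  obtain ⟨O, hO, hxO, F, hF⟩ := closed_sl hH (ed s r) e he hne
  exact ⟨F, hF _ hxO⟩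

/-- simple separation in a single slice -/
lemma single_sep (c : Option R) (S S' : Set (Ω → Dsc (Option R)))
    (hs : ∀ a ∈ S, {ξ | a ξ ≠ ⟨c⟩}.Countable) (hs' : ∀ a ∈ S', {ξ | a ξ ≠ ⟨c⟩}.Countable)
    (hc : ∀ e : Ω → Dsc (Option R), {ξ | e ξ ≠ ⟨c⟩}.Countable → e ∉ S →
      ∃ F : Finset Ω, ∀ e' ∈ cy e F, e' ∉ S)
    (hc' : ∀ e : Ω → Dsc (Option R), {ξ | e ξ ≠ ⟨c⟩}.Countable → e ∉ S' →
      ∃ F : Finset Ω, ∀ e' ∈ cy e F, e' ∉ S')
    (hdis : ∀ e, e ∈ S → e ∉ S') :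
    ∃ cell : (Ω → Dsc (Option R)) → Finset Ω,
      (∀ x, (∀ a ∈ cy x (cell x), a ∉ S) ∨ (∀ a ∈ cy x (cell x), a ∉ S')) ∧
      ∀ x y, y ∈ cy x (cell x) → cell y = cell x := by
  let T : Option R → Set (Ω → Dsc (Option R)) := fun i => if i = none then S else ∅
  let T' : Option R → Set (Ω → Dsc (Option R)) := fun i => if i = none then S' else ∅
  obtain ⟨cell, h1, h2⟩ := sep_lemma (R := R) (⟨c⟩ : Dsc (Option R)) T T'
    (by
      intro i a ha
      cases i with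
      | none => exact hs a (by simpa [T] using ha)
      | some r => simp [T] at ha)
    (by
      intro i a ha
      cases i with
      | none => exact hs' a (by simpa [T'] using ha)
      | some r => simp [T'] at ha)
    (by
      intro y hy hyT
      obtain ⟨F, hF⟩ := hc y hy (by simpa [T] using hyT)
      exact ⟨F, ∅, by simpa [T] using hF, fun r _ a _ => by simp [T]⟩)
    (by
      intro y hy hyT
      obtain ⟨F, hF⟩ := hc' y hy (by simpa [T'] using hyT)
      exact ⟨F, ∅, by simpa [T'] using hF, fun r _ a _ => by simp [T']⟩)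
    (by
      intro y hy
      simp only [T, T', if_true] at hy ⊢
      exact hdis y hy)
  refine ⟨cell, fun x => ?_, h2⟩
  rcases h1 x with ⟨B, hB, _⟩ | ⟨B, hB, _⟩
  · left; simpa [T] using hB
  · right; simpa [T'] using hB

theorem DB_normal [Uncountable Ω] : NormalSpace (DB Ω R) := by
  classical
  refine ⟨fun H K hH hK hdis => ?_⟩
  have hdis' : ∀ x e, e ∈ sl H x → e ∉ sl K x := by
    rintro x e ⟨h1, h2⟩ ⟨h3, h4⟩
    exact Set.disjoint_left.1 hdis h2 h4
  -- cells at hi s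
  have hS : ∀ s : Finset Ω, ∃ cell : (Ω → Dsc (Option R)) → Finset Ω,
      (∀ x, Good (fun i : Option R => sl H (i.elim (hi s) (ed s))) (cy x (cell x)) ∨
        Good (fun i : Option R => sl K (i.elim (hi s) (ed s))) (cy x (cell x))) ∧
      ∀ x y, y ∈ cy x (cell x) → cell y = cell x := by
    intro s
    apply sep_lemma (⟨none⟩ : Dsc (Option R))
    · intro i a ha
      cases i with
      | none => exact sl_countable H _ _ ha
      | some r => exact sl_countable H _ _ ha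
    · intro i a ha
      cases i with
      | none => exact sl_countable K _ _ ha
      | some r => exact sl_countable K _ _ ha
    · intro y hy hyT
      obtain ⟨F, A, h1, h2⟩ := closed_hi hH s y hy hyT
      exact ⟨F, A, h1, h2⟩
    · intro y hy hyT
      obtain ⟨F, A, h1, h2⟩ := closed_hi hK s y hy hyT
      exact ⟨F, A, h1, h2⟩
    · intro y hy
      exact hdis' _ _ hy
  choose cS hS1 hS2 using hS
  -- cells at lo r
  have hR : ∀ r : R, ∃ cell : (Ω → Dsc (Option R)) → Finset Ω,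
      (∀ x, (∀ a ∈ cy x (cell x), a ∉ sl H (lo r)) ∨ (∀ a ∈ cy x (cell x), a ∉ sl K (lo r))) ∧
      ∀ x y, y ∈ cy x (cell x) → cell y = cell x := by
    intro r
    apply single_sep (some r)
    · intro a ha; exact sl_countable H _ _ ha
    · intro a ha; exact sl_countable K _ _ ha
    · intro e he hne
      obtain ⟨F, hF, _⟩ := closed_lo hH r e he hne
      exact ⟨F, hF⟩
    · intro e he hne
      obtain ⟨F, hF, _⟩ := closed_lo hK r e he hne
      exact ⟨F, hF⟩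
    · intro e he; exact hdis' _ _ he
  choose cR hR1 hR2 using hR
  -- cells at ed s r
  have hE : ∀ (s : Finset Ω) (r : R), ∃ cell : (Ω → Dsc (Option R)) → Finset Ω,
      (∀ x, (∀ a ∈ cy x (cell x), a ∉ sl H (ed s r)) ∨
        (∀ a ∈ cy x (cell x), a ∉ sl K (ed s r))) ∧
      ∀ x y, y ∈ cy x (cell x) → cell y = cell x := by
    intro s r
    apply single_sep none
    · intro a ha; exact sl_countable H _ _ ha
    · intro a ha; exact sl_countable K _ _ ha
    · intro e he hne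
      exact closed_ed hH s r e he hne
    · intro e he hne
      exact closed_ed hK s r e he hne
    · intro e he; exact hdis' _ _ he
  choose cE hE1 hE2 using hE
  -- the clopen sets
  let gH : Finset Ω → Set (Ω → Dsc (Option R)) → Prop := fun s C =>
    Good (fun i : Option R => sl H (i.elim (hi s) (ed s))) C
  let gK : Finset Ω → Set (Ω → Dsc (Option R)) → Prop := fun s C =>
    Good (fun i : Option R => sl K (i.elim (hi s) (ed s))) C
  -- exceptional finite sets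
  have hBH : ∀ (s : Finset Ω) (C : Set (Ω → Dsc (Option R))), ∃ B : Finset R, gH s C →
      (∀ a ∈ C, a ∉ sl H (hi s)) ∧ ∀ r, r ∉ B → ∀ a ∈ C, a ∉ sl H (ed s r) := by
    intro s C
    by_cases h : gH s C
    · obtain ⟨B, h1, h2⟩ := h
      exact ⟨B, fun _ => ⟨h1, h2⟩⟩
    · exact ⟨∅, fun h' => absurd h' h⟩
  have hBK : ∀ (s : Finset Ω) (C : Set (Ω → Dsc (Option R))), ∃ B : Finset R, gK s C →
      (∀ a ∈ C, a ∉ sl K (hi s)) ∧ ∀ r, r ∉ B → ∀ a ∈ C, a ∉ sl K (ed s r) := by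
    intro s C
    by_cases h : gK s C
    · obtain ⟨B, h1, h2⟩ := h
      exact ⟨B, fun _ => ⟨h1, h2⟩⟩
    · exact ⟨∅, fun h' => absurd h' h⟩
  choose BH hBH using hBH
  choose BK hBK using hBK
  let TS : Finset Ω → Set (Ω → Dsc (Option R)) := fun s => {x | ¬ gH s (cy x (cS s x))}
  let OR : R → Set (Ω → Dsc (Option R)) := fun r => {x | ∀ a ∈ cy x (cR r x), a ∉ sl K (lo r)}
  let QE : Finset Ω → R → Set (Ω → Dsc (Option R)) := fun s r =>
    {x | ∀ a ∈ cy x (cE s r x), a ∉ sl K (ed s r)}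
  have hOR : ∀ r x y, y ∈ cy x (cR r x) → (y ∈ OR r ↔ x ∈ OR r) := by
    intro r x y hy
    simp only [OR, mem_ofPred_eq]
    rw [hR2 r x y hy, cy_eq hy]
  -- local data at lo r
  have hA : ∀ (r : R) (e : Ω → Dsc (Option R)), ∃ F : Finset Ω,
      {ξ | e ξ ≠ ⟨some r⟩}.Countable →
        (∃ ξ ∈ F, e ξ = ⟨some r⟩) ∧
        (e ∈ OR r → (∀ e' ∈ cy e F, e' ∈ OR r) ∧
          ∀ s, F ⊆ s → ∀ e' ∈ cy e F, e' ∉ sl K (ed s r)) ∧
        (e ∉ OR r → (∀ e' ∈ cy e F, e' ∉ OR r) ∧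
          ∀ s, F ⊆ s → ∀ e' ∈ cy e F, e' ∉ sl H (ed s r)) := by
    intro r e
    by_cases he : {ξ | e ξ ≠ ⟨some r⟩}.Countable
    · have hex : ∃ ξ, e ξ = ⟨some r⟩ := by
        by_contra hcon
        push Not at hcon
        have : {ξ | e ξ ≠ ⟨some r⟩} = univ := eq_univ_of_forall hcon
        rw [this] at he
        exact Set.not_countable_univ he
      obtain ⟨ξ₀, hξ₀⟩ := hex
      by_cases heO : e ∈ OR r
      · have hne : e ∉ sl K (lo r) := heO e (self_mem_cy _ _)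
        obtain ⟨F, _, hF⟩ := closed_lo hK r e he hne
        refine ⟨F ∪ {ξ₀} ∪ cR r e, fun _ => ⟨⟨ξ₀, by simp, hξ₀⟩, fun _ => ⟨?_, ?_⟩,
          fun h => absurd heO h⟩⟩
        · intro e' he'
          rw [hOR r e e' (cy_anti e Finset.subset_union_right he')]
          exact heO
        · intro s hs e' he'
          refine hF s ?_ e' (cy_anti e ?_ he')
          · exact (Finset.subset_union_left.trans Finset.subset_union_left).trans hs
          · exact Finset.subset_union_left.trans Finset.subset_union_left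
      · have hne : e ∉ sl H (lo r) := by
          rcases hR1 r e with h | h
          · exact h e (self_mem_cy _ _)
          · exact absurd h heO
        obtain ⟨F, _, hF⟩ := closed_lo hH r e he hne
        refine ⟨F ∪ {ξ₀} ∪ cR r e, fun _ => ⟨⟨ξ₀, by simp, hξ₀⟩, fun h => absurd h heO,
          fun _ => ⟨?_, ?_⟩⟩⟩
        · intro e' he'
          rw [hOR r e e' (cy_anti e Finset.subset_union_right he')]
          exact heO
        · intro s hs e' he'
          refine hF s ?_ e' (cy_anti e ?_ he')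
          · exact (Finset.subset_union_left.trans Finset.subset_union_left).trans hs
          · exact Finset.subset_union_left.trans Finset.subset_union_left
    · exact ⟨∅, fun h => absurd h he⟩
  choose aR haR using hA
  -- the local clopen sets on edges
  let PK : Finset Ω → R → Set (Ω → Dsc (Option R)) := fun s r =>
    {x | ∃ e, {ξ | e ξ ≠ ⟨some r⟩}.Countable ∧ e ∈ OR r ∧ aR r e ⊆ s ∧ x ∈ cy e (aR r e)}
  let PH : Finset Ω → R → Set (Ω → Dsc (Option R)) := fun s r =>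
    {x | ∃ e, {ξ | e ξ ≠ ⟨some r⟩}.Countable ∧ e ∉ OR r ∧ aR r e ⊆ s ∧ x ∈ cy e (aR r e)}
  -- dependence on finitely many coordinates
  have hPK : ∀ s r x y, y ∈ cy x s → (y ∈ PK s r ↔ x ∈ PK s r) := by
    have h1 : ∀ s r x y, y ∈ cy x s → x ∈ PK s r → y ∈ PK s r := by
      rintro s r x y hy ⟨e, h1, h2, h3, h4⟩
      refine ⟨e, h1, h2, h3, fun ξ hξ => ?_⟩
      rw [hy ξ (h3 hξ)]
      exact h4 ξ hξ
    exact fun s r x y hy => ⟨h1 s r y x (cy_symm hy), h1 s r x y hy⟩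
  have hPH : ∀ s r x y, y ∈ cy x s → (y ∈ PH s r ↔ x ∈ PH s r) := by
    have h1 : ∀ s r x y, y ∈ cy x s → x ∈ PH s r → y ∈ PH s r := by
      rintro s r x y hy ⟨e, h1, h2, h3, h4⟩
      refine ⟨e, h1, h2, h3, fun ξ hξ => ?_⟩
      rw [hy ξ (h3 hξ)]
      exact h4 ξ hξ
    exact fun s r x y hy => ⟨h1 s r y x (cy_symm hy), h1 s r x y hy⟩
  have hTS : ∀ s x y, y ∈ cy x (cS s x) → (y ∈ TS s ↔ x ∈ TS s) := by
    intro s x y hy
    simp only [TS, mem_ofPred_eq]
    rw [hS2 s x y hy, cy_eq hy]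
  have hQE : ∀ s r x y, y ∈ cy x (cE s r x) → (y ∈ QE s r ↔ x ∈ QE s r) := by
    intro s r x y hy
    simp only [QE, mem_ofPred_eq]
    rw [hE2 s r x y hy, cy_eq hy]
  -- membership over an edge
  let ME : Finset Ω → R → Set (Ω → Dsc (Option R)) := fun s r =>
    {x | ((∀ ξ ∈ s, x ξ ≠ ⟨some r⟩) ∧
          ((x ∈ TS s ∧ (r ∉ BK s (cy x (cS s x)) ∨ x ∈ QE s r)) ∨
            (x ∉ TS s ∧ r ∈ BH s (cy x (cS s x)) ∧ x ∈ QE s r))) ∨
        ((∃ ξ ∈ s, x ξ = ⟨some r⟩) ∧ (x ∈ PK s r ∨ (x ∈ QE s r ∧ x ∉ PH s r)))}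
  have hME : ∀ s r x y, y ∈ cy x (s ∪ cS s x ∪ cE s r x) → (y ∈ ME s r ↔ x ∈ ME s r) := by
    intro s r x y hy
    have y1 : y ∈ cy x s :=
      cy_anti x (Finset.subset_union_left.trans Finset.subset_union_left) hy
    have y2 : y ∈ cy x (cS s x) :=
      cy_anti x (Finset.subset_union_right.trans Finset.subset_union_left) hy
    have y3 : y ∈ cy x (cE s r x) := cy_anti x Finset.subset_union_right hy
    have e1 : (∀ ξ ∈ s, y ξ ≠ ⟨some r⟩) ↔ (∀ ξ ∈ s, x ξ ≠ ⟨some r⟩) := by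
      constructor
      · intro h ξ hξ; rw [← y1 ξ hξ]; exact h ξ hξ
      · intro h ξ hξ; rw [y1 ξ hξ]; exact h ξ hξ
    have e2 : (∃ ξ ∈ s, y ξ = ⟨some r⟩) ↔ (∃ ξ ∈ s, x ξ = ⟨some r⟩) := by
      constructor
      · rintro ⟨ξ, hξ, h⟩; exact ⟨ξ, hξ, by rw [← y1 ξ hξ]; exact h⟩
      · rintro ⟨ξ, hξ, h⟩; exact ⟨ξ, hξ, by rw [y1 ξ hξ]; exact h⟩
    simp only [ME, mem_ofPred_eq]
    rw [e1, e2, hTS s x y y2, hQE s r x y y3, hPK s r x y y1, hPH s r x y y1, hS2 s x y y2,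
      cy_eq y2]
  let MW : Q2 Ω R → Set (Ω → Dsc (Option R)) := fun x =>
    match x with
    | lo r => OR r
    | hi s => TS s
    | ed s r => ME s r
  let W : Set (DB Ω R) := {p | p.1.2 ∈ MW p.1.1}
  -- general openness principle
  have hlocal : ∀ p : DB Ω R, ∃ O : Set (Q2 Ω R), IsOpen O ∧ p.1.1 ∈ O ∧ ∃ F : Finset Ω,
      ∀ q : DB Ω R, q.1.1 ∈ O → (∀ ξ ∈ F, q.1.2 ξ = p.1.2 ξ) → (q ∈ W ↔ p ∈ W) := by
    rintro ⟨⟨y, e⟩, hp⟩
    cases y with
    | ed s r =>
      refine ⟨{ed s r}, isOpen_ed s r, rfl, s ∪ cS s e ∪ cE s r e, ?_⟩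
      rintro ⟨⟨y', e'⟩, hq⟩ hy' he'
      rw [mem_singleton_iff] at hy'
      simp only at hy'
      subst hy'
      exact hME s r e e' he'
    | hi s =>
      refine ⟨nhi s (BK s (cy e (cS s e)) ∪ BH s (cy e (cS s e)) ∪
        s.biUnion fun ξ => (e ξ).val.toFinset), isOpen_nhi _ _, Or.inl rfl, s ∪ cS s e, ?_⟩
      rintro ⟨⟨y', e'⟩, hq⟩ hy' he'
      have y1 : e' ∈ cy e s := cy_anti e Finset.subset_union_left he'
      have y2 : e' ∈ cy e (cS s e) := cy_anti e Finset.subset_union_right he'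
      rcases hy' with hy' | ⟨r, hr, hy'⟩
      · simp only at hy'
        subst hy'
        exact hTS s e e' y2
      · simp only at hy'
        subst hy'
        rw [Finset.notMem_union, Finset.notMem_union] at hr
        obtain ⟨⟨hr1, hr2⟩, hr3⟩ := hr
        have hno : ∀ ξ ∈ s, e' ξ ≠ ⟨some r⟩ := by
          intro ξ hξ hcon
          apply hr3
          rw [Finset.mem_biUnion]
          refine ⟨ξ, hξ, ?_⟩
          rw [← y1 ξ hξ, hcon]
          simp
        change e' ∈ ME s r ↔ e ∈ TS s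
        have hT := hTS s e e' y2
        simp only [ME, mem_ofPred_eq]
        rw [hS2 s e e' y2, cy_eq y2]
        constructor
        · rintro (⟨_, ⟨h1, _⟩ | ⟨_, h2, _⟩⟩ | ⟨⟨ξ, hξ, h⟩, _⟩)
          · exact hT.1 h1
          · exact absurd h2 hr2
          · exact absurd h (hno ξ hξ)
        · intro h
          exact Or.inl ⟨hno, Or.inl ⟨hT.2 h, Or.inl hr1⟩⟩
    | lo r =>
      have hcount : {ξ | e ξ ≠ ⟨some r⟩}.Countable := hp
      obtain ⟨⟨ξ₀, hξ₀, hξ₀e⟩, hK1, hH1⟩ := haR r e hcount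
      refine ⟨nlo r (aR r e), isOpen_nlo _ _, Or.inl rfl, aR r e ∪ cR r e, ?_⟩
      rintro ⟨⟨y', e'⟩, hq⟩ hy' he'
      have y1 : e' ∈ cy e (aR r e) := cy_anti e Finset.subset_union_left he'
      have y2 : e' ∈ cy e (cR r e) := cy_anti e Finset.subset_union_right he'
      rcases hy' with hy' | ⟨s, hs, hy'⟩
      · simp only at hy'
        subst hy'
        exact hOR r e e' y2
      · simp only at hy'
        subst hy'
        change e' ∈ ME s r ↔ e ∈ OR r
        have hyes : ∃ ξ ∈ s, e' ξ = ⟨some r⟩ := ⟨ξ₀, hs hξ₀, by rw [y1 ξ₀ hξ₀]; exact hξ₀e⟩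
        constructor
        · rintro (⟨h, _⟩ | ⟨_, ⟨e₁, h1, h2, h3, h4⟩ | ⟨_, h⟩⟩)
          · obtain ⟨ξ, hξ, h'⟩ := hyes
            exact absurd h' (h ξ hξ)
          · by_contra hcon
            have := (((haR r e₁ h1).2.1 h2).1 e' h4)
            exact ((hH1 hcon).1 e' y1) this
          · by_contra hcon
            exact h ⟨e, hcount, hcon, hs, y1⟩
        · intro h
          exact Or.inr ⟨hyes, Or.inl ⟨e, hcount, h, hs, y1⟩⟩
  have hWo : IsOpen W := by
    apply isOpen_of_local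
    intro p hp
    obtain ⟨O, hO, hpO, F, hF⟩ := hlocal p
    exact ⟨O, hO, hpO, F, fun q h1 h2 => (hF q h1 h2).2 hp⟩
  have hWc : IsOpen Wᶜ := by
    apply isOpen_of_local
    intro p hp
    obtain ⟨O, hO, hpO, F, hF⟩ := hlocal p
    exact ⟨O, hO, hpO, F, fun q h1 h2 h3 => hp ((hF q h1 h2).1 h3)⟩
  refine ⟨W, Wᶜ, hWo, hWc, ?_, ?_, disjoint_compl_right⟩
  · -- H ⊆ W
    rintro ⟨⟨y, e⟩, hp⟩ hmem
    have hsl : e ∈ sl H y := ⟨hp, hmem⟩
    cases y with
    | lo r =>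
      change e ∈ OR r
      rcases hR1 r e with h | h
      · exact absurd hsl (h e (self_mem_cy _ _))
      · exact h
    | hi s =>
      change e ∈ TS s
      intro hg
      exact (hBH s _ hg).1 e (self_mem_cy _ _) hsl
    | ed s r =>
      change e ∈ ME s r
      have hQ : e ∈ QE s r := by
        rcases hE1 s r e with h | h
        · exact absurd hsl (h e (self_mem_cy _ _))
        · exact h
      by_cases hξ : ∃ ξ ∈ s, e ξ = ⟨some r⟩
      · right
        refine ⟨hξ, Or.inr ⟨hQ, ?_⟩⟩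
        rintro ⟨e₁, h1, h2, h3, h4⟩
        exact ((haR r e₁ h1).2.2 h2).2 s h3 e h4 hsl
      · left
        push Not at hξ
        refine ⟨hξ, ?_⟩
        by_cases hT : e ∈ TS s
        · exact Or.inl ⟨hT, Or.inr hQ⟩
        · right
          refine ⟨hT, ?_, hQ⟩
          by_contra hr
          have hg : gH s (cy e (cS s e)) := by
            by_contra hcon
            exact hT hcon
          exact (hBH s _ hg).2 r hr e (self_mem_cy _ _) hsl
  · -- K ⊆ Wᶜ
    rintro ⟨⟨y, e⟩, hp⟩ hmem hW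
    have hsl : e ∈ sl K y := ⟨hp, hmem⟩
    cases y with
    | lo r =>
      have hW' : e ∈ OR r := hW
      exact hW' e (self_mem_cy _ _) hsl
    | hi s =>
      have hW' : e ∈ TS s := hW
      have hg : gK s (cy e (cS s e)) := by
        rcases hS1 s e with h | h
        · exact absurd h hW'
        · exact h
      exact (hBK s _ hg).1 e (self_mem_cy _ _) hsl
    | ed s r =>
      have hW' : e ∈ ME s r := hW
      have hQ : e ∉ QE s r := fun h => h e (self_mem_cy _ _) hsl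
      rcases hW' with ⟨_, ⟨hT, hr | hr⟩ | ⟨_, _, hr⟩⟩ | ⟨_, ⟨e₁, h1, h2, h3, h4⟩ | ⟨h, _⟩⟩
      · have hg : gK s (cy e (cS s e)) := by
          rcases hS1 s e with h | h
          · exact absurd h hT
          · exact h
        exact (hBK s _ hg).2 r hr e (self_mem_cy _ _) hsl
      · exact hQ hr
      · exact hQ hr
      · exact ((haR r e₁ h1).2.1 h2).2 s h3 e h4 hsl
      · exact hQ h

end Pool.Agent.Helper23.Fill
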