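import Mathlib

set_option autoImplicit false

/-!
A Jones-machine type space `Pt Ω R`: T1, regular, not completely regular when `Ω` is infinite and
`#Ω < #R`.
-/

open Topology Set

namespace Pool.Agent.Helper23.Fill

/-- Points of the space. -/
inductive Pt (Ω R : Type) : Type
  | inf : Pt Ω R
  | lo : ℕ → R → Pt Ω R
  | hi : ℕ → Finset Ω → Pt Ω R
  | ed : ℕ → Bool → Finset Ω → R → Pt Ω R

namespace Pt

variable {Ω R : Type}

/-- level of a point (only relevant for points different from `inf`). -/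
def lev : Pt Ω R → ℕ
  | inf => 0
  | lo n _ => 4 * n
  | hi n _ => 4 * n + 2
  | ed n false _ _ => 4 * n + 1
  | ed n true _ _ => 4 * n + 3

/-- the tail sets -/
def tail (N : ℕ) : Set (Pt Ω R) := {y | y = inf ∨ N ≤ lev y}

lemma inf_mem_tail (N : ℕ) : (inf : Pt Ω R) ∈ tail N := Or.inl rfl

lemma tail_anti {M N : ℕ} (h : M ≤ N) : (tail N : Set (Pt Ω R)) ⊆ tail M := by
  rintro y (hy | hy)
  · exact Or.inl hy
  · exact Or.inr (h.trans hy)

/-- the local condition for open sets -/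
def OpenCond (U : Set (Pt Ω R)) : Prop :=
  (inf ∈ U → ∃ N, tail N ⊆ U) ∧
  (∀ n r, lo n r ∈ U → ∃ F : Finset Ω, ∀ s, F ⊆ s → ed n false s r ∈ U ∧
    ∀ m, n = m + 1 → ed m true s r ∈ U) ∧
  (∀ n s, hi n s ∈ U → ∃ A : Finset R, ∀ r, r ∉ A → ed n false s r ∈ U ∧ ed n true s r ∈ U)

open Classical in
instance : TopologicalSpace (Pt Ω R) where
  IsOpen U := OpenCond U
  isOpen_univ := ⟨fun _ => ⟨0, subset_univ _⟩, fun _ _ _ => ⟨∅, fun _ _ => ⟨trivial, fun _ _ => trivial⟩⟩,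
    fun _ _ _ => ⟨∅, fun _ _ => ⟨trivial, trivial⟩⟩⟩
  isOpen_inter := by
    rintro U V ⟨u1, u2, u3⟩ ⟨v1, v2, v3⟩
    refine ⟨?_, ?_, ?_⟩
    · rintro ⟨hU, hV⟩
      obtain ⟨N, hN⟩ := u1 hU
      obtain ⟨M, hM⟩ := v1 hV
      exact ⟨max N M, fun y hy => ⟨hN (tail_anti (le_max_left _ _) hy),
        hM (tail_anti (le_max_right _ _) hy)⟩⟩
    · rintro n r ⟨hU, hV⟩
      obtain ⟨F, hF⟩ := u2 n r hU
      obtain ⟨G, hG⟩ := v2 n r hV
      refine ⟨F ∪ G, fun s hs => ?_⟩
      have h1 := hF s (Finset.subset_union_left.trans hs)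
      have h2 := hG s (Finset.subset_union_right.trans hs)
      exact ⟨⟨h1.1, h2.1⟩, fun m hm => ⟨h1.2 m hm, h2.2 m hm⟩⟩
    · rintro n s ⟨hU, hV⟩
      obtain ⟨F, hF⟩ := u3 n s hU
      obtain ⟨G, hG⟩ := v3 n s hV
      refine ⟨F ∪ G, fun r hr => ?_⟩
      rw [Finset.notMem_union] at hr
      have h1 := hF r hr.1
      have h2 := hG r hr.2
      exact ⟨⟨h1.1, h2.1⟩, ⟨h1.2, h2.2⟩⟩
  isOpen_sUnion := by
    intro S hS
    refine ⟨?_, ?_, ?_⟩
    · rintro ⟨U, hU, hm⟩
      obtain ⟨N, hN⟩ := (hS U hU).1 hm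
      exact ⟨N, fun y hy => ⟨U, hU, hN hy⟩⟩
    · rintro n r ⟨U, hU, hm⟩
      obtain ⟨F, hF⟩ := (hS U hU).2.1 n r hm
      exact ⟨F, fun s hs => ⟨⟨U, hU, (hF s hs).1⟩, fun m hm' => ⟨U, hU, (hF s hs).2 m hm'⟩⟩⟩
    · rintro n s ⟨U, hU, hm⟩
      obtain ⟨F, hF⟩ := (hS U hU).2.2 n s hm
      exact ⟨F, fun r hr => ⟨⟨U, hU, (hF r hr).1⟩, ⟨U, hU, (hF r hr).2⟩⟩⟩

lemma isOpen_def (U : Set (Pt Ω R)) : IsOpen U ↔ OpenCond U := Iff.rfl

/-- closed set criterion -/
lemma isClosed_def (U : Set (Pt Ω R)) : IsClosed U ↔ OpenCond Uᶜ := by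
  rw [← isOpen_compl_iff]; rfl

lemma exists_singleton_ne [Infinite Ω] (t : Finset Ω) :
    ∃ F : Finset Ω, ∀ s, F ⊆ s → s ≠ t := by
  obtain ⟨ξ, hξ⟩ := Infinite.exists_notMem_finset t
  refine ⟨{ξ}, fun s hs => ?_⟩
  rintro rfl
  exact hξ (hs (Finset.mem_singleton_self ξ))

instance [Infinite Ω] : T1Space (Pt Ω R) := by
  classical
  refine ⟨fun x => ?_⟩
  rw [isClosed_def]
  refine ⟨?_, ?_, ?_⟩
  · intro hx
    refine ⟨lev x + 1, ?_⟩
    rintro y (hy | hy) hyx
    · subst hy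
      exact hx hyx
    · rw [mem_singleton_iff] at hyx
      subst hyx
      omega
  · intro n r _
    cases x with
    | inf => exact ⟨∅, fun s _ => ⟨by simp, by simp⟩⟩
    | lo m r' => exact ⟨∅, fun s _ => ⟨by simp, by simp⟩⟩
    | hi m t => exact ⟨∅, fun s _ => ⟨by simp, by simp⟩⟩
    | ed m b t r' =>
      obtain ⟨F, hF⟩ := exists_singleton_ne t
      exact ⟨F, fun s hs => ⟨by simp [hF s hs], by simp [hF s hs]⟩⟩
  · intro n s _
    cases x with
    | inf => exact ⟨∅, fun s _ => ⟨by simp, by simp⟩⟩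
    | lo m r' => exact ⟨∅, fun s _ => ⟨by simp, by simp⟩⟩
    | hi m t => exact ⟨∅, fun s _ => ⟨by simp, by simp⟩⟩
    | ed m b t r' =>
      refine ⟨{r'}, fun r hr => ?_⟩
      rw [Finset.mem_singleton] at hr
      exact ⟨by simp [hr], by simp [hr]⟩

lemma isOpen_tail (m : ℕ) : IsOpen (tail (4 * m + 1) : Set (Pt Ω R)) := by
  rw [isOpen_def]
  refine ⟨fun _ => ⟨_, Subset.rfl⟩, ?_, ?_⟩
  · intro n r h
    have h : 4 * m + 1 ≤ 4 * n := by
      rcases h with h | h
      · cases h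
      · exact h
    refine ⟨∅, fun s _ => ⟨Or.inr ?_, fun k hk => Or.inr ?_⟩⟩
    · simp only [lev]; omega
    · simp only [lev]; omega
  · intro n s h
    have h : 4 * m + 1 ≤ 4 * n + 2 := by
      rcases h with h | h
      · cases h
      · exact h
    refine ⟨∅, fun r _ => ⟨Or.inr ?_, Or.inr ?_⟩⟩
    · simp only [lev]; omega
    · simp only [lev]; omega

lemma isClosed_tail (m : ℕ) : IsClosed (tail (4 * m) : Set (Pt Ω R)) := by
  rw [isClosed_def]
  refine ⟨fun h => absurd (inf_mem_tail _) h, ?_, ?_⟩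
  · intro n r h
    have h : ¬ (4 * m ≤ 4 * n) := fun h' => h (Or.inr h')
    refine ⟨∅, fun s _ => ⟨?_, fun k hk => ?_⟩⟩
    · rintro (h' | h')
      · cases h'
      · simp only [lev] at h'; omega
    · rintro (h' | h')
      · cases h'
      · simp only [lev] at h'; omega
  · intro n s h
    have h : ¬ (4 * m ≤ 4 * n + 2) := fun h' => h (Or.inr h')
    refine ⟨∅, fun r _ => ⟨?_, ?_⟩⟩
    · rintro (h' | h')
      · cases h'
      · simp only [lev] at h'; omega
    · rintro (h' | h')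
      · cases h'
      · simp only [lev] at h'; omega

/-- basic clopen neighbourhood of `lo n r` -/
def nlo (n : ℕ) (r : R) (F : Finset Ω) : Set (Pt Ω R) :=
  {y | y = lo n r ∨ (∃ s, F ⊆ s ∧ y = ed n false s r) ∨
    ∃ m s, n = m + 1 ∧ F ⊆ s ∧ y = ed m true s r}

/-- basic clopen neighbourhood of `hi n s` -/
def nhi (n : ℕ) (s : Finset Ω) (A : Finset R) : Set (Pt Ω R) :=
  {y | y = hi n s ∨ ∃ b r, r ∉ A ∧ y = ed n b s r}

lemma isOpen_nlo (n : ℕ) (r : R) (F : Finset Ω) : IsOpen (nlo n r F) := by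
  rw [isOpen_def]
  refine ⟨?_, ?_, ?_⟩
  · rintro (h | ⟨s, _, h⟩ | ⟨m, s, _, _, h⟩) <;> cases h
  · intro n' r' h
    rcases h with (h | ⟨s, _, h⟩ | ⟨m, s, _, _, h⟩)
    · cases h
      refine ⟨F, fun s hs => ⟨Or.inr (Or.inl ⟨s, hs, rfl⟩), fun m hm =>
        Or.inr (Or.inr ⟨m, s, hm, hs, rfl⟩)⟩⟩
    · cases h
    · cases h
  · intro n' s' h
    rcases h with (h | ⟨s, _, h⟩ | ⟨m, s, _, _, h⟩) <;> cases h

lemma isClosed_nlo (n : ℕ) (r : R) (F : Finset Ω) : IsClosed (nlo n r F) := by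
  classical
  rw [isClosed_def]
  refine ⟨?_, ?_, ?_⟩
  · intro _
    refine ⟨4 * n + 4, ?_⟩
    rintro y (hy | hy)
    · subst hy
      rintro (h | ⟨s, _, h⟩ | ⟨m, s, _, _, h⟩) <;> cases h
    · rintro (h | ⟨s, _, h⟩ | ⟨m, s, hm, _, h⟩)
      · subst h; simp only [lev] at hy; omega
      · subst h; simp only [lev] at hy; omega
      · subst h; simp only [lev] at hy; omega
  · intro n' r' h
    refine ⟨∅, fun s _ => ⟨?_, ?_⟩⟩
    · rintro (h' | ⟨s, _, h'⟩ | ⟨m, s, hm, _, h'⟩)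
      · cases h'
      · cases h'; exact h (Or.inl rfl)
      · cases h'
    · intro m hm
      rintro (h' | ⟨s, _, h'⟩ | ⟨m, s, hm', _, h'⟩)
      · cases h'
      · cases h'
      · cases h'
        apply h
        left
        rw [hm, hm']
  · intro n' s' h
    refine ⟨{r}, fun r' hr' => ?_⟩
    rw [Finset.mem_singleton] at hr'
    constructor
    · rintro (h' | ⟨s, _, h'⟩ | ⟨m, s, hm', _, h'⟩)
      · cases h'
      · cases h'; exact hr' rfl
      · cases h'
    · rintro (h' | ⟨s, _, h'⟩ | ⟨m, s, hm', _, h'⟩)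
      · cases h'
      · cases h'
      · cases h'; exact hr' rfl

lemma isOpen_nhi (n : ℕ) (s : Finset Ω) (A : Finset R) : IsOpen (nhi n s A) := by
  rw [isOpen_def]
  refine ⟨?_, ?_, ?_⟩
  · rintro (h | ⟨b, r, _, h⟩) <;> cases h
  · intro n' r' h
    rcases h with (h | ⟨b, r, _, h⟩) <;> cases h
  · intro n' s' h
    rcases h with (h | ⟨b, r, _, h⟩)
    · cases h
      exact ⟨A, fun r hr => ⟨Or.inr ⟨false, r, hr, rfl⟩, Or.inr ⟨true, r, hr, rfl⟩⟩⟩
    · cases h

lemma isClosed_nhi [Infinite Ω] (n : ℕ) (s : Finset Ω) (A : Finset R) :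
    IsClosed (nhi n s A) := by
  classical
  rw [isClosed_def]
  refine ⟨?_, ?_, ?_⟩
  · intro _
    refine ⟨4 * n + 4, ?_⟩
    rintro y (hy | hy)
    · subst hy
      rintro (h | ⟨b, r, _, h⟩) <;> cases h
    · rintro (h | ⟨b, r, _, h⟩)
      · subst h; simp only [lev] at hy; omega
      · subst h
        cases b
        · simp only [lev] at hy; omega
        · simp only [lev] at hy; omega
  · intro n' r' h
    obtain ⟨F, hF⟩ := exists_singleton_ne s
    refine ⟨F, fun s' hs' => ⟨?_, ?_⟩⟩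
    · rintro (h' | ⟨b, r, _, h'⟩)
      · cases h'
      · cases h'; exact hF _ hs' rfl
    · intro m hm
      rintro (h' | ⟨b, r, _, h'⟩)
      · cases h'
      · cases h'; exact hF _ hs' rfl
  · intro n' s' h
    refine ⟨∅, fun r' hr' => ?_⟩
    constructor
    · rintro (h' | ⟨b, r, _, h'⟩)
      · cases h'
      · cases h'; exact h (Or.inl rfl)
    · rintro (h' | ⟨b, r, _, h'⟩)
      · cases h'
      · cases h'; exact h (Or.inl rfl)

lemma isOpen_ed (n : ℕ) (b : Bool) (s : Finset Ω) (r : R) : IsOpen ({ed n b s r} : Set (Pt Ω R)) := by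
  rw [isOpen_def]
  refine ⟨?_, ?_, ?_⟩
  · intro h; cases h
  · intro n r h; cases h
  · intro n r h; cases h

/-- neighbourhood basis -/
lemma exists_nlo_subset {U : Set (Pt Ω R)} (hU : IsOpen U) {n : ℕ} {r : R} (h : lo n r ∈ U) :
    ∃ F : Finset Ω, nlo n r F ⊆ U := by
  obtain ⟨F, hF⟩ := hU.2.1 n r h
  refine ⟨F, ?_⟩
  rintro y (hy | ⟨s, hs, hy⟩ | ⟨m, s, hm, hs, hy⟩)
  · rw [hy]; exact h
  · rw [hy]; exact (hF s hs).1
  · rw [hy]; exact (hF s hs).2 m hm

lemma exists_nhi_subset {U : Set (Pt Ω R)} (hU : IsOpen U) {n : ℕ} {s : Finset Ω}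
    (h : hi n s ∈ U) : ∃ A : Finset R, nhi n s A ⊆ U := by
  obtain ⟨A, hA⟩ := hU.2.2 n s h
  refine ⟨A, ?_⟩
  rintro y (hy | ⟨b, r, hr, hy⟩)
  · rw [hy]; exact h
  · rw [hy]
    cases b
    · exact (hA r hr).1
    · exact (hA r hr).2

lemma exists_tail_subset {U : Set (Pt Ω R)} (hU : IsOpen U) (h : inf ∈ U) :
    ∃ N, tail N ⊆ U := hU.1 h

instance [Infinite Ω] : RegularSpace (Pt Ω R) := by
  apply RegularSpace.of_exists_mem_nhds_isClosed_subset
  intro x t ht
  obtain ⟨U, hUt, hUo, hxU⟩ := mem_nhds_iff.1 ht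
  cases x with
  | inf =>
    obtain ⟨N, hN⟩ := exists_tail_subset hUo hxU
    refine ⟨tail (4 * N), ?_, isClosed_tail N, ?_⟩
    · rw [mem_nhds_iff]
      exact ⟨tail (4 * N + 1), tail_anti (by omega), isOpen_tail N, inf_mem_tail _⟩
    · exact (tail_anti (by omega)).trans (hN.trans hUt)
  | lo n r =>
    obtain ⟨F, hF⟩ := exists_nlo_subset hUo hxU
    exact ⟨nlo n r F, (isOpen_nlo n r F).mem_nhds (Or.inl rfl), isClosed_nlo n r F, hF.trans hUt⟩
  | hi n s =>
    obtain ⟨A, hA⟩ := exists_nhi_subset hUo hxU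
    exact ⟨nhi n s A, (isOpen_nhi n s A).mem_nhds (Or.inl rfl), isClosed_nhi n s A, hA.trans hUt⟩
  | ed n b s r =>
    refine ⟨{ed n b s r}, (isOpen_ed n b s r).mem_nhds rfl, isClosed_singleton, ?_⟩
    rw [singleton_subset_iff]
    exact hUt hxU

/-! ### failure of complete regularity -/

section fail

open Cardinal

variable [Infinite Ω] (hΩR : #Ω < #R) (f : Pt Ω R → ℝ) (hf : Continuous f) (c : ℝ)

include hf in
lemma isOpen_near (x : Pt Ω R) (ε : ℝ) : IsOpen {y | |f y - f x| < ε} := by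
  have : Continuous fun y => |f y - f x| := (hf.sub continuous_const).abs
  exact isOpen_lt this continuous_const

include hΩR hf in
lemma step1 (n : ℕ) (hP : #{r | f (lo n r) ≠ c} ≤ #Ω) :
    ∀ ε > 0, ∃ F : Finset Ω, ∀ s, F ⊆ s → |f (hi n s) - c| ≤ ε := by
  classical
  intro ε hε
  have hex : ∀ r : R, ∃ F : Finset Ω, ∀ s, F ⊆ s → |f (ed n false s r) - f (lo n r)| < ε := by
    intro r
    have hmem : lo n r ∈ {y | |f y - f (lo n r)| < ε} := by simpa using hε
    obtain ⟨F, hF⟩ := (isOpen_near f hf (lo n r) ε).2.1 n r hmem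
    exact ⟨F, fun s hs => (hF s hs).1⟩
  choose F hF using hex
  -- some fibre is infinite
  have hfib : ∃ F₀ : Finset Ω, {r | f (lo n r) = c ∧ F r = F₀}.Infinite := by
    by_contra hcon
    push Not at hcon
    have hcover : (univ : Set R) ⊆ {r | f (lo n r) ≠ c} ∪
        ⋃ F₀ : Finset Ω, {r | f (lo n r) = c ∧ F r = F₀} := by
      intro r _
      by_cases h : f (lo n r) = c
      · right
        exact mem_iUnion.2 ⟨F r, h, rfl⟩
      · left; exact h
    have h1 : #R ≤ #Ω := by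
      have hle : #(univ : Set R) ≤ #({r | f (lo n r) ≠ c} ∪
        ⋃ F₀ : Finset Ω, {r | f (lo n r) = c ∧ F r = F₀} : Set R) := mk_le_mk_of_subset hcover
      rw [mk_univ] at hle
      refine hle.trans ((mk_union_le _ _).trans ?_)
      have h2 : #(⋃ F₀ : Finset Ω, {r | f (lo n r) = c ∧ F r = F₀} : Set R) ≤ #Ω := by
        refine (mk_iUnion_le _).trans ?_
        have hfin : ⨆ i : Finset Ω, #{r | f (lo n r) = c ∧ F r = i} ≤ ℵ₀ := by
          apply ciSup_le'
          intro i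
          exact (hcon i).lt_aleph0.le
        calc #(Finset Ω) * ⨆ i : Finset Ω, #{r | f (lo n r) = c ∧ F r = i}
            ≤ #(Finset Ω) * ℵ₀ := by gcongr
          _ = #Ω := by
            rw [mk_finset_of_infinite, mul_aleph0_eq]
            exact aleph0_le_mk Ω
      calc #{r | f (lo n r) ≠ c} + #(⋃ F₀ : Finset Ω, {r | f (lo n r) = c ∧ F r = F₀} : Set R)
          ≤ #Ω + #Ω := by gcongr
        _ = #Ω := add_eq_self (aleph0_le_mk Ω)
    exact absurd h1 (not_le.2 hΩR)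
  obtain ⟨F₀, hF₀⟩ := hfib
  refine ⟨F₀, fun s hs => ?_⟩
  by_contra hcon
  push Not at hcon
  have hopen : IsOpen {y | ε < |f y - c|} :=
    isOpen_lt continuous_const ((hf.sub continuous_const).abs)
  obtain ⟨A, hA⟩ := hopen.2.2 n s hcon
  obtain ⟨r, hr, hrA⟩ := hF₀.exists_notMem_finset A
  have h1 := (hA r hrA).1
  have h2 := hF r s (by rw [hr.2]; exact hs)
  rw [hr.1] at h2
  simp only [mem_ofPred_eq] at h1
  linarith

include hΩR hf in
lemma step2 (n : ℕ) (hQ : ∀ ε > 0, ∃ F : Finset Ω, ∀ s, F ⊆ s → |f (hi n s) - c| ≤ ε) :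
    #{r | f (lo (n + 1) r) ≠ c} ≤ #Ω := by
  classical
  have hex : ∀ (s : Finset Ω) (k : ℕ), ∃ A : Finset R, ∀ r, r ∉ A →
      |f (ed n true s r) - f (hi n s)| < 1 / ((k : ℝ) + 1) := by
    intro s k
    have hmem : hi n s ∈ {y | |f y - f (hi n s)| < 1 / ((k : ℝ) + 1)} := by
      simp only [mem_ofPred_eq, sub_self, abs_zero]
      positivity
    obtain ⟨A, hA⟩ := (isOpen_near f hf (hi n s) (1 / ((k : ℝ) + 1))).2.2 n s hmem
    exact ⟨A, fun r hr => (hA r hr).2⟩
  choose A hA using hex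
  have hsub : {r | f (lo (n + 1) r) ≠ c} ⊆ ⋃ p : Finset Ω × ℕ, (A p.1 p.2 : Set R) := by
    intro r hr
    by_contra hcon
    simp only [mem_iUnion, not_exists] at hcon
    have heq : ∀ s, f (ed n true s r) = f (hi n s) := by
      intro s
      have : |f (ed n true s r) - f (hi n s)| ≤ 0 := by
        apply ge_of_tendsto' tendsto_one_div_add_atTop_nhds_zero_nat
        intro k
        exact (hA s k r (fun h => hcon (s, k) (by exact_mod_cast h))).le
      have := abs_nonpos_iff.1 this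
      linarith
    have hpos : 0 < |f (lo (n + 1) r) - c| := abs_pos.2 (sub_ne_zero.2 hr)
    set δ := |f (lo (n + 1) r) - c| with hδ
    have hmem : lo (n + 1) r ∈ {y | |f y - f (lo (n + 1) r)| < δ / 2} := by
      simp only [mem_ofPred_eq, sub_self, abs_zero]
      positivity
    obtain ⟨F, hF⟩ := (isOpen_near f hf (lo (n + 1) r) (δ / 2)).2.1 (n + 1) r hmem
    obtain ⟨F', hF'⟩ := hQ (δ / 2) (by positivity)
    have h1 := (hF (F ∪ F') Finset.subset_union_left).2 n rfl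
    have h2 := hF' (F ∪ F') Finset.subset_union_right
    simp only [mem_ofPred_eq] at h1
    rw [heq] at h1
    have h3 : δ ≤ |f (hi n (F ∪ F')) - f (lo (n + 1) r)| + |f (hi n (F ∪ F')) - c| := by
      rw [hδ]
      have := abs_sub_le (f (lo (n + 1) r)) (f (hi n (F ∪ F'))) c
      rw [abs_sub_comm (f (lo (n + 1) r)) (f (hi n (F ∪ F')))] at this
      exact this
    linarith
  refine (mk_le_mk_of_subset hsub).trans ((mk_iUnion_le _).trans ?_)
  have hfin : ⨆ p : Finset Ω × ℕ, #(A p.1 p.2 : Set R) ≤ ℵ₀ := by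
    apply ciSup_le'
    intro p
    exact ((A p.1 p.2).finite_toSet.lt_aleph0).le
  calc #(Finset Ω × ℕ) * ⨆ p : Finset Ω × ℕ, #(A p.1 p.2 : Set R)
      ≤ #(Finset Ω × ℕ) * ℵ₀ := by gcongr
    _ = #Ω := by
      rw [mk_prod, lift_id, lift_id, mk_finset_of_infinite, mk_nat, mul_aleph0_eq (aleph0_le_mk Ω),
        mul_aleph0_eq (aleph0_le_mk Ω)]

include hΩR hf in
/-- A continuous function constant on the bottom level has the same value at `inf`. -/
theorem inf_eq (h0 : ∀ r, f (lo 0 r) = c) : f inf = c := by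
  have hP : ∀ n, #{r | f (lo n r) ≠ c} ≤ #Ω := by
    intro n
    induction n with
    | zero =>
      have : {r | f (lo 0 r) ≠ c} = ∅ := by
        ext r; simp [h0 r]
      rw [this]
      simp
    | succ n ih => exact step2 hΩR f hf c n (step1 hΩR f hf c n ih)
  by_contra hne
  have hpos : 0 < |f inf - c| := abs_pos.2 (sub_ne_zero.2 hne)
  have hmem : inf ∈ {y | |f y - f inf| < |f inf - c|} := by simpa using hpos
  obtain ⟨N, hN⟩ := (isOpen_near f hf inf |f inf - c|).1 hmem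
  have hex : ∃ r, f (lo N r) = c := by
    by_contra hcon
    push Not at hcon
    have : {r | f (lo N r) ≠ c} = Set.univ := by
      ext r; simp [hcon r]
    have h1 := hP N
    rw [this, mk_univ] at h1
    exact absurd h1 (not_le.2 hΩR)
  obtain ⟨r, hr⟩ := hex
  have hm : (lo N r : Pt Ω R) ∈ tail N := Or.inr (by simp only [lev]; omega)
  have h5 := hN hm
  simp only [mem_ofPred_eq, hr] at h5
  rw [abs_sub_comm] at h5
  exact lt_irrefl _ h5

end fail

open Cardinal in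
theorem not_completelyRegular [Infinite Ω] (hΩR : #Ω < #R) :
    ¬ CompletelyRegularSpace (Pt Ω R) := by
  intro h
  have hcl : IsClosed (range (lo 0 : R → Pt Ω R)) := by
    rw [isClosed_def]
    refine ⟨?_, ?_, ?_⟩
    · intro _
      refine ⟨1, ?_⟩
      rintro y (hy | hy) ⟨r, hr⟩
      · subst hy; cases hr
      · subst hr; simp only [lev] at hy; omega
    · intro n r _
      refine ⟨∅, fun s _ => ⟨by simp, by simp⟩⟩
    · intro n s _
      refine ⟨∅, fun r _ => ⟨by simp, by simp⟩⟩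
  obtain ⟨f, hf, hf0, hf1⟩ := h.completely_regular inf _ hcl (by simp)
  have := inf_eq hΩR (fun y => (f y : ℝ)) (continuous_subtype_val.comp hf) 1 (by
    intro r
    have := hf1 (mem_range_self r)
    simp [this])
  rw [hf0] at this
  simp at this

end Pt
end Pool.Agent.Helper23.Fill
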