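import Mathlib
import Pool.Agent.Helper23.Fill.SpaceY
import Pool.Agent.Helper23.Fill.LocalOpen

set_option autoImplicit false

/-!
The completely regular subspace filling all countable subproducts with a factor which is not
completely regular.
-/

open Topology Set

namespace Pool.Agent.Helper23.Fill

open Pt

variable {Ω R : Type}

/-- The subspace -/
def DC (Ω R : Type) : Set (Pt Ω R × (Ω → Dsc R)) :=
  {p | ∀ n r, p.1 = lo n r → ∃ ξ, p.2 ξ = ⟨r⟩}

lemma DC_fill [Uncountable Ω] (J : Set Ω) (hJ : J.Countable) (y : Pt Ω R) (a : Ω → Dsc R) :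
    ∃ e, (y, e) ∈ DC Ω R ∧ ∀ ξ ∈ J, e ξ = a ξ := by
  classical
  have hex : ∃ ξ₀, ξ₀ ∉ J := by
    by_contra hcon
    push Not at hcon
    have : J = univ := eq_univ_of_forall hcon
    rw [this] at hJ
    exact Set.not_countable_univ hJ
  obtain ⟨ξ₀, hξ₀⟩ := hex
  cases y with
  | lo n r =>
    refine ⟨Function.update a ξ₀ ⟨r⟩, ?_, ?_⟩
    · intro n' r' h
      cases h
      exact ⟨ξ₀, by simp⟩
    · intro ξ hξ
      have : ξ ≠ ξ₀ := by rintro rfl; exact hξ₀ hξ
      simp [this]
  | inf => 
    refine ⟨a, ?_, fun _ _ => rfl⟩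
    intro n' r' h
    cases h
  | hi n s => 
    refine ⟨a, ?_, fun _ _ => rfl⟩
    intro n' r' h
    cases h
  | ed n b s r => 
    refine ⟨a, ?_, fun _ _ => rfl⟩
    intro n' r' h
    cases h

/-- clopen neighbourhoods at infinity -/
def WC (n : ℕ) : Set (DC Ω R) :=
  {p | p.1.1 ∈ tail (4 * n + 2) ∨ ∃ s r, p.1.1 = ed n false s r ∧ ∀ ξ ∈ s, p.1.2 ξ ≠ ⟨r⟩}

lemma isOpen_WC [Infinite Ω] (n : ℕ) : IsOpen (WC n : Set (DC Ω R)) := by
  classical
  apply isOpen_of_local
  rintro ⟨⟨y, e⟩, hp⟩ hW
  cases y with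
  | inf =>
    refine ⟨tail (4 * (n + 1) + 1), isOpen_tail _, inf_mem_tail _, ∅, fun q hq _ => Or.inl ?_⟩
    exact tail_anti (by omega) hq
  | lo m r =>
    have hm : 4 * n + 2 ≤ 4 * m := by
      rcases hW with h | ⟨s, r', h, _⟩
      · rcases h with h | h
        · cases h
        · exact h
      · cases h
    refine ⟨nlo m r ∅, isOpen_nlo _ _ _, Or.inl rfl, ∅, fun q hq _ => Or.inl (Or.inr ?_)⟩
    rcases hq with hq | ⟨s, _, hq⟩ | ⟨k, s, hk, _, hq⟩
    · rw [hq]; exact hm
    · rw [hq]; simp only [lev]; omega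
    · rw [hq]; simp only [lev]; omega
  | hi m s =>
    have hm : n ≤ m := by
      rcases hW with h | ⟨s, r', h, _⟩
      · rcases h with h | h
        · cases h
        · simp only [lev] at h; omega
      · cases h
    refine ⟨nhi m s (s.image fun ξ => (e ξ).val), isOpen_nhi _ _ _, Or.inl rfl, s,
      fun q hq hqe => ?_⟩
    rcases hq with hq | ⟨b, r, hr, hq⟩
    · left; right; rw [hq]; simp only [lev]; omega
    · cases b
      · by_cases hmn : m = n
        · subst hmn
          right
          refine ⟨s, r, hq, fun ξ hξ hcon => hr ?_⟩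
          rw [Finset.mem_image]
          refine ⟨ξ, hξ, ?_⟩
          have := hqe ξ hξ
          simp only at this
          rw [← this, hcon]
        · left; right; rw [hq]; simp only [lev]; omega
      · left; right; rw [hq]; simp only [lev]; omega
  | ed m b s r =>
    refine ⟨{ed m b s r}, isOpen_ed _ _ _ _, rfl, s, fun q hq hqe => ?_⟩
    rw [mem_singleton_iff] at hq
    rcases hW with h | ⟨s', r', h, h'⟩
    · left; rw [hq]; exact h
    · simp only at h
      cases h
      right
      refine ⟨s, r, hq, fun ξ hξ => ?_⟩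
      rw [hqe ξ hξ]
      exact h' ξ hξ

lemma isClosed_WC [Infinite Ω] (n : ℕ) : IsClosed (WC n : Set (DC Ω R)) := by
  classical
  rw [← isOpen_compl_iff]
  apply isOpen_of_local
  rintro ⟨⟨y, e⟩, hp⟩ hW
  cases y with
  | inf => exact absurd (Or.inl (Or.inl rfl)) hW
  | lo m r =>
    have hm : m ≤ n := by
      by_contra hcon
      apply hW
      left; right; simp only [lev]; omega
    obtain ⟨ξ₀, hξ₀⟩ := hp m r rfl
    refine ⟨nlo m r {ξ₀}, isOpen_nlo _ _ _, Or.inl rfl, {ξ₀}, fun q hq hqe => ?_⟩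
    rcases hq with hq | ⟨s, hs, hq⟩ | ⟨k, s, hk, _, hq⟩
    · rintro (h | ⟨s', r', h, _⟩)
      · rw [hq] at h
        rcases h with h | h
        · cases h
        · simp only [lev] at h; omega
      · rw [hq] at h; cases h
    · rintro (h | ⟨s', r', h, h'⟩)
      · rw [hq] at h
        rcases h with h | h
        · cases h
        · simp only [lev] at h; omega
      · rw [hq] at h; cases h
        apply h' ξ₀ (hs (Finset.mem_singleton_self _))
        rw [hqe ξ₀ (Finset.mem_singleton_self _)]
        exact hξ₀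
    · rintro (h | ⟨s', r', h, _⟩)
      · rw [hq] at h
        rcases h with h | h
        · cases h
        · simp only [lev] at h; omega
      · rw [hq] at h; cases h
  | hi m s =>
    have hm : m < n := by
      by_contra hcon
      apply hW
      left; right; simp only [lev]; omega
    refine ⟨nhi m s ∅, isOpen_nhi _ _ _, Or.inl rfl, ∅, fun q hq hqe => ?_⟩
    rcases hq with hq | ⟨b, r, hr, hq⟩
    · rintro (h | ⟨s', r', h, _⟩)
      · rw [hq] at h
        rcases h with h | h
        · cases h
        · simp only [lev] at h; omega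
      · rw [hq] at h; cases h
    · rintro (h | ⟨s', r', h, _⟩)
      · rw [hq] at h
        rcases h with h | h
        · cases h
        · cases b <;> simp only [lev] at h <;> omega
      · rw [hq] at h; cases h; omega
  | ed m b s r =>
    refine ⟨{ed m b s r}, isOpen_ed _ _ _ _, rfl, s, fun q hq hqe => ?_⟩
    rw [mem_singleton_iff] at hq
    rintro (h | ⟨s', r', h, h'⟩)
    · rw [hq] at h
      exact hW (Or.inl h)
    · rw [hq] at h; cases h
      apply hW
      right
      refine ⟨s, r, rfl, fun ξ hξ => ?_⟩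
      have := h' ξ hξ
      rw [hqe ξ hξ] at this
      exact this

instance [Infinite Ω] : T35Space (DC Ω R) := by
  classical
  have hcr : CompletelyRegularSpace (DC Ω R) := by
    apply completelyRegular_of_clopen
    rintro ⟨⟨y, e⟩, hp⟩ K hK hx
    obtain ⟨O, hO, hyO, F, hF⟩ := exists_local Kᶜ ⟨⟨y, e⟩, hp⟩ (hK.isOpen_compl.mem_nhds hx)
    simp only at hyO
    -- it suffices to find a clopen set inside the preimage of `O`
    suffices h : ∃ W : Set (DC Ω R), IsClopen W ∧ (⟨⟨y, e⟩, hp⟩ : DC Ω R) ∈ W ∧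
        ∀ q ∈ W, q.1.1 ∈ O by
      obtain ⟨W, hW, hxW, hWO⟩ := h
      refine ⟨W ∩ {q | ∀ ξ ∈ F, q.1.2 ξ = e ξ}, ?_, ⟨hxW, fun _ _ => rfl⟩, ?_⟩
      · exact hW.inter ((isClopen_agree e F).preimage
          (continuous_snd.comp continuous_subtype_val))
      · rw [Set.disjoint_left]
        rintro q ⟨hq1, hq2⟩
        exact hF q (hWO q hq1) hq2
    have hcont : Continuous fun q : DC Ω R => q.1.1 := continuous_fst.comp continuous_subtype_val
    cases y with
    | inf =>
      obtain ⟨N, hN⟩ := exists_tail_subset hO hyO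
      refine ⟨WC N, ⟨isClosed_WC N, isOpen_WC N⟩, Or.inl (inf_mem_tail _), ?_⟩
      rintro q (hq | ⟨s, r, hq, _⟩)
      · exact hN (tail_anti (by omega) hq)
      · rw [hq]; exact hN (Or.inr (by simp only [lev]; omega))
    | lo n r =>
      obtain ⟨G, hG⟩ := exists_nlo_subset hO hyO
      have hcl : IsClopen (nlo n r G : Set (Pt Ω R)) := ⟨isClosed_nlo n r G, isOpen_nlo n r G⟩
      exact ⟨_, hcl.preimage hcont, Or.inl rfl, fun q hq => hG hq⟩
    | hi n s =>
      obtain ⟨A, hA⟩ := exists_nhi_subset hO hyO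
      have hcl : IsClopen (nhi n s A : Set (Pt Ω R)) := ⟨isClosed_nhi n s A, isOpen_nhi n s A⟩
      exact ⟨_, hcl.preimage hcont, Or.inl rfl, fun q hq => hA hq⟩
    | ed n b s r =>
      have hcl : IsClopen ({ed n b s r} : Set (Pt Ω R)) := ⟨isClosed_singleton, isOpen_ed n b s r⟩
      refine ⟨_, hcl.preimage hcont, rfl, fun q hq => ?_⟩
      rw [mem_preimage, mem_singleton_iff] at hq
      rw [hq]; exact hyO
  have : T0Space (DC Ω R) := inferInstance
  exact { completely_regular := hcr.completely_regular, t0 := this.t0 }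

end Pool.Agent.Helper23.Fill
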