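import Mathlib
import Pool.Agent.Helper23.Fill.Bridge

set_option autoImplicit false

/-!
The finite filling example: for a T3 space `Y`, the set of pairs `(y, e)` with
`e : ℕ → Option Y` eventually `none` and last proper value `y` is paracompact.
-/

open Topology Set

namespace Pool.Agent.Helper23.Fill

variable {Y : Type} [TopologicalSpace Y]

/-- The subspace -/
def DFin (Y : Type) : Set (Y × (ℕ → Dsc (Option Y))) :=
  {p | ∃ n, p.2 n = ⟨some p.1⟩ ∧ ∀ m, n < m → p.2 m = ⟨none⟩}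

lemma DFin_fill (J : Set ℕ) (hJ : J.Finite) (y : Y) (a : ℕ → Dsc (Option Y)) :
    ∃ e, (y, e) ∈ DFin Y ∧ ∀ ξ ∈ J, e ξ = a ξ := by
  classical
  obtain ⟨N, hN⟩ := hJ.bddAbove
  refine ⟨fun n => if n ≤ N then a n else if n = N + 1 then ⟨some y⟩ else ⟨none⟩, ?_, ?_⟩
  · refine ⟨N + 1, ?_, ?_⟩
    · simp
    · intro m hm
      have h1 : ¬ m ≤ N := by omega
      have h2 : m ≠ N + 1 := by omega
      simp [h1, h2]
  · intro ξ hξ
    have : ξ ≤ N := hN hξ
    simp [this]

/-- the rank -/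
noncomputable def rk (d : DFin Y) : ℕ := d.2.choose

lemma rk_spec (d : DFin Y) : d.1.2 (rk d) = ⟨some d.1.1⟩ ∧ ∀ m, rk d < m → d.1.2 m = ⟨none⟩ :=
  d.2.choose_spec

/-- agreement up to `n` -/
def cyl (d : DFin Y) (n : ℕ) : Set (DFin Y) := {d' | ∀ k ≤ n, d'.1.2 k = d.1.2 k}

lemma self_mem_cyl (d : DFin Y) (n : ℕ) : d ∈ cyl d n := fun _ _ => rfl

lemma isClopen_cyl (d : DFin Y) (n : ℕ) : IsClopen (cyl d n) := by
  have : cyl d n = ⋂ k ∈ Finset.range (n + 1), {d' : DFin Y | d'.1.2 k = d.1.2 k} := by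
    ext d'
    simp only [cyl, mem_ofPred_eq, mem_iInter, Finset.mem_range]
    constructor
    · intro h k hk; exact h k (by omega)
    · intro h k hk; exact h k (by omega)
  rw [this]
  apply isClopen_biInter_finset
  intro k _
  have hc : Continuous fun d' : DFin Y => d'.1.2 k :=
    (continuous_apply k).comp (continuous_snd.comp continuous_subtype_val)
  exact (isClopen_discrete {d.1.2 k}).preimage hc

/-- two points of the same rank `m` agreeing up to `m` are equal -/
lemma eq_of_agree (d d' : DFin Y) (h : rk d = rk d')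
    (hag : ∀ k ≤ rk d, d.1.2 k = d'.1.2 k) : d = d' := by
  have h1 := rk_spec d
  have h2 := rk_spec d'
  have h3 : d.1.2 = d'.1.2 := by
    funext k
    by_cases hk : k ≤ rk d
    · exact hag k hk
    · rw [h1.2 k (by omega), h2.2 k (by omega)]
  have h4 : d.1.1 = d'.1.1 := by
    have := hag (rk d) le_rfl
    rw [h1.1, h, h2.1] at this
    simpa using this
  exact Subtype.ext (Prod.ext h4 h3)

instance [T1Space Y] [RegularSpace Y] : ParacompactSpace (DFin Y) := by
  classical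
  refine ⟨fun α s hso hsc => ?_⟩
  -- choose covering sets
  have hcov : ∀ d : DFin Y, ∃ a, d ∈ s a := by
    intro d
    have : d ∈ ⋃ a, s a := by rw [hsc]; trivial
    exact mem_iUnion.1 this
  choose a ha using hcov
  have hG : ∀ d : DFin Y, ∃ G : Set (DFin Y), IsOpen G ∧ d ∈ G ∧
      closure G ⊆ s (a d) ∩ cyl d (rk d) := by
    intro d
    have hn : s (a d) ∩ cyl d (rk d) ∈ 𝓝 d :=
      Filter.inter_mem ((hso _).mem_nhds (ha d)) ((isClopen_cyl d _).isOpen.mem_nhds
        (self_mem_cyl d _))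
    obtain ⟨t, ht, htc, hts⟩ := exists_mem_nhds_isClosed_subset hn
    obtain ⟨G, hGt, hGo, hdG⟩ := mem_nhds_iff.1 ht
    exact ⟨G, hGo, hdG, (closure_minimal hGt htc).trans hts⟩
  choose G hGo hdG hGc using hG
  -- unions over a fixed rank
  let GG : ℕ → Set (DFin Y) := fun n => ⋃ d : {d : DFin Y // rk d = n}, G d.1
  have hGGc : ∀ n, closure (GG n) = ⋃ d : {d : DFin Y // rk d = n}, closure (G d.1) := by
    intro n
    apply LocallyFinite.closure_iUnion
    intro x
    refine ⟨cyl x n, (isClopen_cyl x n).isOpen.mem_nhds (self_mem_cyl x n), ?_⟩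
    apply Set.Subsingleton.finite
    rintro ⟨d, hd⟩ ⟨z, hz1, hz2⟩ ⟨d', hd'⟩ ⟨z', hz1', hz2'⟩
    apply Subtype.ext
    apply eq_of_agree d d' (hd.trans hd'.symm)
    intro k hk
    have e1 := (hGc d (subset_closure hz1)).2 k hk
    have e2 := (hGc d' (subset_closure hz1')).2 k (by
      have : rk d = rk d' := hd.trans hd'.symm
      omega)
    have hkn : k ≤ n := by
      have : rk d = n := hd
      omega
    have e3 := hz2 k hkn
    have e4 := hz2' k hkn
    rw [← e1, ← e2, e3, e4]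
  let V : DFin Y → Set (DFin Y) := fun d =>
    (s (a d) ∩ cyl d (rk d)) \ ⋃ m ∈ Finset.range (rk d), closure (GG m)
  refine ⟨DFin Y, V, ?_, ?_, ?_, fun d => ⟨a d, fun x hx => hx.1.1⟩⟩
  · intro d
    refine (((hso _).inter (isClopen_cyl d _).isOpen)).sdiff ?_
    exact isClosed_biUnion_finset fun m _ => isClosed_closure
  · rw [eq_univ_iff_forall]
    intro x
    have hex : ∃ n, ∃ d : DFin Y, rk d = n ∧ x ∈ s (a d) ∩ cyl d (rk d) :=
      ⟨rk x, x, rfl, ha x, self_mem_cyl x _⟩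
    obtain ⟨d, hd, hxd⟩ := Nat.find_spec hex
    refine mem_iUnion.2 ⟨d, hxd, ?_⟩
    intro hx
    simp only [mem_iUnion, Finset.mem_range] at hx
    obtain ⟨m, hm, hx⟩ := hx
    rw [hGGc] at hx
    obtain ⟨⟨d', hd'⟩, hx'⟩ := mem_iUnion.1 hx
    have hlt : m < Nat.find hex := by rw [hd] at hm; exact hm
    exact Nat.find_min hex hlt ⟨d', hd', hGc d' hx'⟩
  · intro x
    refine ⟨G x ∩ cyl x (rk x), Filter.inter_mem ((hGo x).mem_nhds (hdG x))
      ((isClopen_cyl x _).isOpen.mem_nhds (self_mem_cyl x _)), ?_⟩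
    have hmaps : ∀ d ∈ {d | (V d ∩ (G x ∩ cyl x (rk x))).Nonempty}, rk d ≤ rk x := by
      rintro d ⟨z, hz1, hz2, hz3⟩
      by_contra hcon
      apply hz1.2
      simp only [mem_iUnion, Finset.mem_range]
      refine ⟨rk x, by omega, subset_closure ?_⟩
      exact mem_iUnion.2 ⟨⟨x, rfl⟩, hz2⟩
    apply Set.Finite.of_finite_image (f := rk)
    · apply (Set.finite_Iic (rk x)).subset
      rintro _ ⟨d, hd, rfl⟩
      exact hmaps d hd
    · rintro d hd d' hd' hrk
      apply eq_of_agree d d' hrk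
      intro k hk
      have b1 := hmaps d hd
      obtain ⟨z, hz1, hz2, hz3⟩ := hd
      obtain ⟨z', hz1', hz2', hz3'⟩ := hd'
      rw [← hz1.1.2 k hk, hz3 k (by omega), ← hz3' k (by omega), hz1'.1.2 k (by omega)]

end Pool.Agent.Helper23.Fill
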