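import Mathlib
import Pool.Agent.Helper23.Fill.Defs

set_option autoImplicit false

open Topology Set

namespace Pool.Agent.Helper23.Fill

universe u v

variable {I : Type u} {X : I → Type v}

lemma FillsCountable.exists_mem {D : Set (∀ i, X i)} (hD : FillsCountable D) [Nonempty I]
    (J : Set I) (hJ : J.Countable) (x : ∀ i, X i) : ∃ d ∈ D, ∀ j ∈ J, d j = x j := by
  obtain ⟨i₀⟩ := (inferInstance : Nonempty I)
  have h := hD (insert i₀ J) ⟨i₀, Set.mem_insert _ _⟩ (hJ.insert _)
  have h2 : proj (insert i₀ J) x ∈ proj (insert i₀ J) '' D := by rw [h]; trivial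
  obtain ⟨d, hd, hdx⟩ := h2
  refine ⟨d, hd, fun j hj => ?_⟩
  exact congrFun hdx ⟨j, Set.mem_insert_of_mem _ hj⟩

variable [∀ i, TopologicalSpace (X i)]

/-- every neighbourhood in `D` of `d` contains all points of `D` agreeing with `d` on a finite set -/
lemma exists_finset_of_mem_nhds {D : Set (∀ i, X i)} (d : D) (V : Set D) (hV : V ∈ 𝓝 d) :
    ∃ K : Finset I, ∀ y : D, (∀ k ∈ K, y.1 k = d.1 k) → y ∈ V := by
  rw [mem_nhds_subtype] at hV
  obtain ⟨U, hU, hUV⟩ := hV
  rw [mem_nhds_iff] at hU
  obtain ⟨W, hWU, hWo, hdW⟩ := hU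
  rw [isOpen_pi_iff] at hWo
  obtain ⟨K, u, hu, hKW⟩ := hWo d.1 hdW
  refine ⟨K, fun y hy => hUV (hWU (hKW ?_))⟩
  intro k hk
  rw [hy k hk]
  exact (hu k hk).2

open Classical in
/-- The oscillation lemma. -/
lemma osc_lemma {D : Set (∀ i, X i)} (hD : FillsCountable D) [Nonempty I]
    {ι : Type*} (φ : ι → D → ℝ) (hφ : ∀ i, Continuous (φ i))
    (hlf : LocallyFinite fun i => Function.support (φ i))
    (x : ∀ i, X i) (ε : ℝ) (hε : 0 < ε) :
    ∃ J : Finset I, ∀ d d' : D, (∀ j ∈ J, d.1 j = x j) → (∀ j ∈ J, d'.1 j = x j) →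
      ∀ i, |φ i d - φ i d'| ≤ ε := by
  by_contra hcon
  push Not at hcon
  choose a b ha hb hab using hcon
  -- local constancy up to ε/4, uniformly in i
  have hloc : ∀ d : D, ∃ K : Finset I, ∀ y : D, (∀ k ∈ K, y.1 k = d.1 k) →
      ∀ i, |φ i y - φ i d| < ε / 4 := by
    intro d
    obtain ⟨U, hU, hUfin⟩ := hlf d
    have hV : (U ∩ ⋂ i ∈ hUfin.toFinset, {y : D | |φ i y - φ i d| < ε / 4}) ∈ 𝓝 d := by
      refine Filter.inter_mem hU ?_
      rw [Filter.biInter_finset_mem]
      intro i _
      have hc : Continuous fun y : D => |φ i y - φ i d| := by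
        exact ((hφ i).sub continuous_const).abs
      have : (fun y : D => |φ i y - φ i d|) ⁻¹' Set.Iio (ε / 4) ∈ 𝓝 d := by
        apply hc.continuousAt.preimage_mem_nhds
        apply Iio_mem_nhds
        simp only [sub_self, abs_zero]
        linarith
      exact this
    obtain ⟨K, hK⟩ := exists_finset_of_mem_nhds d _ hV
    refine ⟨K, fun y hy i => ?_⟩
    have h1 := hK y hy
    have h2 := hK d (fun _ _ => rfl)
    by_cases hi : i ∈ hUfin.toFinset
    · have := h1.2
      simp only [Set.mem_iInter, Set.mem_ofPred_eq] at this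
      exact this i hi
    · have hy0 : φ i y = 0 := by
        by_contra hne
        exact hi (by
          rw [Set.Finite.mem_toFinset]
          exact ⟨y, hne, h1.1⟩)
      have hd0 : φ i d = 0 := by
        by_contra hne
        exact hi (by
          rw [Set.Finite.mem_toFinset]
          exact ⟨d, hne, h2.1⟩)
      rw [hy0, hd0]
      simp only [sub_self, abs_zero]
      linarith
  choose K hK using hloc
  -- the recursive sequence of finite sets
  obtain ⟨J, hJsucc⟩ : ∃ J : ℕ → Finset I,
      ∀ n, J (n + 1) = J n ∪ (K (a (J n)) ∪ K (b (J n))) :=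
    ⟨fun n => Nat.rec ∅ (fun _ F => F ∪ (K (a F) ∪ K (b F))) n, fun n => rfl⟩
  have hJmono : Monotone J := by
    apply monotone_nat_of_le_succ
    intro n
    rw [hJsucc]
    exact Finset.subset_union_left
  have hcount : (⋃ n : ℕ, ((J n : Finset I) : Set I)).Countable := by
    apply Set.countable_iUnion
    intro n
    exact Finset.countable_toSet (J n)
  obtain ⟨d, hdD, hd⟩ := hD.exists_mem (⋃ n : ℕ, ((J n : Finset I) : Set I)) hcount x
  -- a large index
  obtain ⟨N, hN⟩ : ∃ N, ∀ k ∈ K ⟨d, hdD⟩, k ∈ (⋃ n : ℕ, ((J n : Finset I) : Set I)) → k ∈ J N := by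
    have : ∀ k : I, ∃ n, k ∈ (⋃ n : ℕ, ((J n : Finset I) : Set I)) → k ∈ J n := by
      intro k
      by_cases hk : k ∈ (⋃ n : ℕ, ((J n : Finset I) : Set I))
      · obtain ⟨n, hn⟩ := Set.mem_iUnion.1 hk
        exact ⟨n, fun _ => hn⟩
      · exact ⟨0, fun h => absurd h hk⟩
    choose n hn using this
    refine ⟨(K ⟨d, hdD⟩).sup n, fun k hk hk2 => ?_⟩
    exact hJmono (Finset.le_sup hk) (hn k hk2)
  have key : ∀ c : D, (∀ j ∈ J N, c.1 j = x j) → K c ⊆ J (N + 1) →
      ∀ i, |φ i ⟨d, hdD⟩ - φ i c| < ε / 2 := by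
    intro c hc hcK i
    -- amalgamate
    obtain ⟨w, hwD, hw⟩ := hD.exists_mem (((K ⟨d, hdD⟩ ∪ K c : Finset I)) : Set I)
      (Finset.countable_toSet _) (fun k => if k ∈ K c then c.1 k else d k)
    have hw1 : ∀ k ∈ K c, w k = c.1 k := by
      intro k hk
      rw [hw k (by simp [hk])]
      simp [hk]
    have hw2 : ∀ k ∈ K ⟨d, hdD⟩, w k = d k := by
      intro k hk
      by_cases hkc : k ∈ K c
      · rw [hw1 k hkc]
        have hku : k ∈ (⋃ n : ℕ, ((J n : Finset I) : Set I)) := Set.mem_iUnion.2 ⟨N + 1, hcK hkc⟩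
        have hkN := hN k hk hku
        rw [hc k hkN, hd k hku]
      · rw [hw k (by simp [hk])]
        simp [hkc]
    have e1 := hK ⟨d, hdD⟩ ⟨w, hwD⟩ hw2 i
    have e2 := hK c ⟨w, hwD⟩ hw1 i
    rw [abs_lt] at e1 e2 ⊢
    constructor <;> linarith [e1.1, e1.2, e2.1, e2.2]
  obtain ⟨i, hi⟩ := hab (J N)
  have k1 := key (a (J N)) (ha (J N)) (by
    rw [hJsucc]
    exact (Finset.subset_union_left).trans Finset.subset_union_right) i
  have k2 := key (b (J N)) (hb (J N)) (by
    rw [hJsucc]
    exact (Finset.subset_union_right).trans Finset.subset_union_right) i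
  rw [abs_lt] at k1 k2
  rw [lt_abs] at hi
  rcases hi with hi | hi <;> linarith [k1.1, k1.2, k2.1, k2.2]

open Classical in
/-- A paracompact Hausdorff subspace filling all countable subproducts is the whole product. -/
theorem eq_univ_of_paracompact [∀ i, T1Space (X i)] [Nonempty I] {D : Set (∀ i, X i)}
    (hD : FillsCountable D) [T2Space D] [ParacompactSpace D] : D = Set.univ := by
  rw [Set.eq_univ_iff_forall]
  intro x
  by_contra hx
  -- the open cover
  let U : I → Set D := fun i => {d | d.1 i ≠ x i}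
  have hUo : ∀ i, IsOpen (U i) := by
    intro i
    have hc : Continuous fun d : D => d.1 i := (continuous_apply i).comp continuous_subtype_val
    exact (isOpen_compl_singleton (x := x i)).preimage hc
  have hUc : (Set.univ : Set D) ⊆ ⋃ i, U i := by
    intro d _
    rw [Set.mem_iUnion]
    by_contra hcon
    push Not at hcon
    apply hx
    have : d.1 = x := by
      funext i
      have := hcon i
      simpa [U] using this
    rw [← this]
    exact d.2
  obtain ⟨f, hf⟩ := PartitionOfUnity.exists_isSubordinate isClosed_univ U hUo hUc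
  -- osc lemma
  have hosc : ∀ n : ℕ, ∃ J : Finset I, ∀ d d' : D, (∀ j ∈ J, d.1 j = x j) →
      (∀ j ∈ J, d'.1 j = x j) → ∀ i, |f i d - f i d'| ≤ 1 / ((n : ℝ) + 1) := by
    intro n
    exact osc_lemma hD (fun i => (f i : D → ℝ)) (fun i => (f i).continuous) f.locallyFinite x _
      (by positivity)
  choose J hJ using hosc
  obtain ⟨d, hdD, hd⟩ := hD.exists_mem (⋃ n, (J n : Set I))
    (Set.countable_iUnion fun n => (J n).countable_toSet) x
  have hzero : ∀ i, f i ⟨d, hdD⟩ = 0 := by
    intro i
    have hle : ∀ n : ℕ, f i ⟨d, hdD⟩ ≤ 1 / ((n : ℝ) + 1) := by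
      intro n
      obtain ⟨d', hdD', hd'⟩ := hD.exists_mem ((J n : Set I) ∪ {i})
        (((J n).countable_toSet).union (Set.countable_singleton i)) x
      have h0 : f i ⟨d', hdD'⟩ = 0 := by
        have hns : (⟨d', hdD'⟩ : D) ∉ tsupport (f i) := by
          intro hmem
          have := hf i hmem
          exact this (hd' i (by simp))
        exact image_eq_zero_of_notMem_tsupport hns
      have h1 := hJ n ⟨d, hdD⟩ ⟨d', hdD'⟩
        (fun j hj => hd j (Set.mem_iUnion.2 ⟨n, hj⟩)) (fun j hj => hd' j (by simp [hj])) i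
      rw [h0, sub_zero] at h1
      exact (le_abs_self _).trans h1
    apply le_antisymm
    · exact ge_of_tendsto' tendsto_one_div_add_atTop_nhds_zero_nat hle
    · exact f.nonneg i _
  have hsum := f.sum_eq_one (Set.mem_univ (⟨d, hdD⟩ : D))
  rw [finsum_congr hzero] at hsum
  simp at hsum

/-- Part (a), countable filling: positive answer. -/
theorem partA (I : Type u) (X : I → Type v) [∀ i, TopologicalSpace (X i)]
    (D : Set (∀ i, X i)) (hT : T1Space (∀ i, X i)) (hD : FillsCountable D)
    (h2 : T2Space D) (hp : ParacompactSpace D) (i : I) :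
    D = Set.univ ∧ T2Space (X i) ∧ ParacompactSpace (X i) := by
  classical
  have : Nonempty I := ⟨i⟩
  -- emptiness
  by_cases hne : Nonempty (X i)
  · -- then the product is nonempty
    have hall : ∀ j, Nonempty (X j) := by
      intro j
      obtain ⟨a⟩ := hne
      have h := hD {i} ⟨i, rfl⟩ (Set.countable_singleton i)
      have h2 : (fun k : ({i} : Set I) => (cast (congrArg X (k.2 : (k : I) = i).symm) a : X k))
          ∈ proj ({i} : Set I) '' D := by
        rw [h]; trivial
      obtain ⟨d, _, _⟩ := h2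
      exact ⟨d j⟩
    have hne' : Nonempty (∀ j, X j) := ⟨fun j => (hall j).some⟩
    obtain ⟨x₀⟩ := hne'
    have hT1 : ∀ j, T1Space (X j) := by
      intro j
      refine ⟨fun a => ?_⟩
      have hcont : Continuous (Function.update x₀ j) := by
        exact continuous_const.update j continuous_id
      have hcl : IsClosed ({Function.update x₀ j a} : Set (∀ j, X j)) := isClosed_singleton
      have := hcl.preimage hcont
      convert this using 1
      ext b
      constructor
      · intro hb
        rw [Set.mem_singleton_iff] at hb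
        subst hb
        rfl
      · intro hb
        have hb' : Function.update x₀ j b = Function.update x₀ j a := hb
        have := congrFun hb' j
        simpa using this
    have hDu := eq_univ_of_paracompact hD
    refine ⟨hDu, ?_⟩
    have hemb : IsClosedEmbedding (fun a : X i => (⟨Function.update x₀ i a, by
        rw [hDu]; trivial⟩ : D)) := by
      have h1 : IsClosedEmbedding (Function.update x₀ i) := isClosedEmbedding_update x₀ i
      have h2 : IsClosedEmbedding (Subtype.val : D → (∀ j, X j)) :=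
        (by rw [hDu]; exact isClosed_univ : IsClosed D).isClosedEmbedding_subtypeVal
      exact (h2.of_comp_iff).1 h1
    exact ⟨hemb.isEmbedding.t2Space, hemb.paracompactSpace⟩
  · -- empty factor
    have hemp : IsEmpty (X i) := not_nonempty_iff.1 hne
    have hemp2 : IsEmpty (∀ j, X j) := ⟨fun x => hemp.false (x i)⟩
    refine ⟨?_, ?_, ?_⟩
    · ext x
      exact (hemp2.false x).elim
    · infer_instance
    · infer_instance

end Pool.Agent.Helper23.Fill
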